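import Pool.Agent.Work.MP_7084a3_full.InterfaceC
import Pool.Agent.Work.MP_7084a3_h91.InterfaceK

set_option autoImplicit false

/-! # Assembly: MAIN -/

namespace Pool.HE

open Pool.HA

/-- the Coxeter group part -/
theorem wmainE (hSGN : Stmt_SGN) (hDOM : Stmt_DOM) (hMONO : Stmt_MONO) (S S' : Type) [Fintype S]
    [DecidableEq S] [Fintype S'] [DecidableEq S'] (M : CoxeterMatrix S) (M' : CoxeterMatrix S')
    (ρ : M.Group →* Module.End ℝ (S → ℝ)) (ρ' : M'.Group →* Module.End ℝ (S' → ℝ))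
    (h3 : 3 ≤ Nat.card S) (ψ : M.Group ≃* M'.Group) (β : S → (S' → ℝ))
    (hβ : WC M M' ρ ρ' ψ β) : ∃ e : S ≃ S', ∀ s t, M' (e s) (e t) = M s t := by
  obtain ⟨β', hβ', hg⟩ := hSGN S S' M M' ρ ρ' ψ β hβ
  obtain ⟨ψ', γ, hγ, hg', hp⟩ := hDOM S S' M M' ρ ρ' ψ β' hβ' hg (by
    rwa [← Nat.card_eq_fintype_card])
  exact hMONO S S' M M' ρ ρ' ψ' γ hγ hg' hp

/-- rigidity for at least three generators -/
theorem rig3E (hGREP : Pool.HA.Stmt_GREP) (hGMI : Stmt_GMI) (hSGN : Stmt_SGN) (hDOM : Stmt_DOM)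
    (hMONO : Stmt_MONO) (hEUC1 : Stmt_EUC1) (hEUC2 : Stmt_EUC2) (S S' : Type) [Finite S]
    [Finite S'] (M : CoxeterMatrix S) (M' : CoxeterMatrix S') (hM : ETyp M) (hM' : ETyp M')
    (h3 : 3 ≤ Nat.card S) (h3' : 3 ≤ Nat.card S') (h : Nonempty (Art M ≃* Art M')) :
    ∃ e : S ≃ S', ∀ s t, M' (e s) (e t) = M s t := by
  classical
  by_cases hE : IsEuc M
  · by_cases hE' : IsEuc M'
    · exact hEUC2 S S' M M' hM hM' hE hE' h
    · exfalso
      obtain ⟨φ⟩ := h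
      exact (hEUC1 S S' M M' hM hM' hE h3' hE').false φ
  · by_cases hE' : IsEuc M'
    · exfalso
      obtain ⟨φ⟩ := h
      exact (hEUC1 S' S M' M hM' hM hE' h3 hE).false φ.symm
    · have := Fintype.ofFinite S
      have := Fintype.ofFinite S'
      obtain ⟨ρ, hρ⟩ := hGREP S M hM.ne_zero
      obtain ⟨ρ', hρ'⟩ := hGREP S' M' hM'.ne_zero
      obtain ⟨ψ, β, hβ⟩ := hGMI S S' M M' ρ ρ' hM hM' hρ hρ' h3 h3' hE hE' h
      exact wmainE hSGN hDOM hMONO S S' M M' ρ ρ' h3 ψ β hβ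

/-- rigidity for two generators -/
theorem rig2E (hK3 : Pool.HA.Stmt_K3) (S S' : Type) [Finite S] [Finite S']
    (M : CoxeterMatrix S) (M' : CoxeterMatrix S') (hM : ETyp M) (hM' : ETyp M')
    (h3 : Nat.card S = 2) (h3' : Nat.card S' = 2) (h : Nonempty (Art M ≃* Art M')) :
    ∃ e : S ≃ S', ∀ s t, M' (e s) (e t) = M s t := by
  classical
  have key := hK3 S S' M M' hM.ne_zero hM'.ne_zero h3 h3' h
  obtain ⟨e⟩ : Nonempty (S ≃ S') := Finite.card_eq.1 (h3.trans h3'.symm)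
  refine ⟨e, fun s t => ?_⟩
  by_cases hst : s = t
  · subst hst; simp
  · exact (key s t (e s) (e t) hst (fun h => hst (e.injective h))).symm

/-- MAIN -/
theorem stmt_MAIN (hGREP : Pool.HA.Stmt_GREP) (hGMI : Stmt_GMI) (hSGN : Stmt_SGN)
    (hDOM : Stmt_DOM) (hMONO : Stmt_MONO) (hEUC1 : Stmt_EUC1) (hEUC2 : Stmt_EUC2)
    (hK1 : Stmt_K1) (hK2 : Pool.HA.Stmt_K2) (hK3 : Pool.HA.Stmt_K3) (hREL : Pool.HA.Stmt_REL) :
    Stmt_MAIN := by
  intro S S' _ _ M M' hM hM' h2 h2'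
  constructor
  · intro h
    rcases Nat.lt_or_ge 2 (Nat.card S) with h3 | h3
    · rcases Nat.lt_or_ge 2 (Nat.card S') with h3' | h3'
      · exact rig3E hGREP hGMI hSGN hDOM hMONO hEUC1 hEUC2 S S' M M' hM hM' h3 h3' h
      · exfalso
        obtain ⟨φ⟩ := h
        obtain ⟨z, hz, hc⟩ := hK2 S' M' hM'.ne_zero (le_antisymm h3' h2')
        have := hK1 S M hM h3 (φ.symm z) (fun y => by
          have h1 := hc (φ y)
          have h4 := congrArg φ.symm h1.eq
          rw [map_mul, map_mul, φ.symm_apply_apply] at h4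
          exact h4)
        exact hz (by simpa using this)
    · rcases Nat.lt_or_ge 2 (Nat.card S') with h3' | h3'
      · exfalso
        obtain ⟨φ⟩ := h
        obtain ⟨z, hz, hc⟩ := hK2 S M hM.ne_zero (le_antisymm h3 h2)
        have := hK1 S' M' hM' h3' (φ z) (fun y => by
          have h1 := hc (φ.symm y)
          have h4 := congrArg φ h1.eq
          rw [map_mul, map_mul, φ.apply_symm_apply] at h4
          exact h4)
        exact hz (by simpa using this)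
      · exact rig2E hK3 S S' M M' hM hM' (le_antisymm h3 h2) (le_antisymm h3' h2') h
  · rintro ⟨e, he⟩
    exact hREL S S' M M' e he

end Pool.HE
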