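import Pool.Agent.Work.MP_7084a3_full.InterfaceG

set_option autoImplicit false

/-! # Blocks E: the coset complex of a two-dimensional Artin group

Angles `ang M 0` (helper91's `ang M ε` with `ε = 0`): in a triangle whose type 2 vertex has labels `{s,t}`, `m = M s t`: type 0
`1/2 - 1/(2m)`, type 1 `1/2`, type 2 `1/(2m)`.  `TLoop Vtx.ad v K s`: `s : ℕ → Stp` has period `K > 0`, all steps are triangles
at `v`, consecutive steps are composable and reduced. -/

namespace Pool.HE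

open Pool.HA

/-! ## Loops in the links -/

/-- LE0: closed reduced link paths at a type 0 vertex. Link vertices: type 1, label `{s}`, and type 2, label `{s,t}`; they
are determined by their labels (`v` has type 0: `ad_mem`, `ext_mem`). Every step joins a type 1 and a type 2 vertex, so
they alternate; `K = 2n` is even. Say `(s i₀).a` has type 1, `i₀ ∈ {0,1}`; let `σ i` be the label of `(s (i₀ + 2i)).a`. Steps `i₀ + 2i`,
`i₀ + 2i + 1` pass through the type 2 vertex with labels `{σ i, σ (i+1)}`; reduced at this vertex: `σ i ≠ σ (i+1)`; reduced at the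
type 1 vertex: `{σ i, σ (i+1)} ≠ {σ (i+1), σ (i+2)}`, so `σ i ≠ σ (i+2)`. The weight is `∑_{i<n} f i`,
`f i = 1 - 1 / M (σ i) (σ (i+1))`, `σ` has period `n`, `n ≥ 3`. For a triple of distinct generators with
`1/m + 1/m' + 1/m'' ≤ 1`, all `≥ 2`, we have `1/m + 1/m' ≤ 5/6` (if `m = m' = 2` then `1/m'' ≤ 0`, no; if `m = 2`, `m' ≥ 3`; else
both `≥ 3`), so `f i + f (i+1) ≥ 7/6`. `n ≥ 4`: `2 ∑ f ≥ 7n/6`, `∑ f - 2 ≥ 7n/12 - 2 ≥ n/12 ≥ 2n/24`. `n = 3`: `∑ f = 3 - ∑ 1/m`, equal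
to `2` iff the triple `E = {σ 0, σ 1, σ 2}` is Euclidean; for the other triples `1 - ∑ 1/m ≥ c' > 0` (`S` finite).
`c = min (1/24) (c'/6)`. (Compare `LP0`, `EST0` of helper91.) -/
def Stmt_LE0 : Prop :=
  ∀ (S : Type) [Finite S] [DecidableEq S] (M : CoxeterMatrix S), ETyp M → ∃ c : ℝ, 0 < c ∧
    ∀ (v : Vtx (gen M)) (K : ℕ) (s : ℕ → Stp (Vtx (gen M))), v.ty = 0 → TLoop Vtx.ad v K s →
      (K = 6 ∧ ∑ j ∈ Finset.range K, ang M 0 v (s j).a (s j).b = 2 ∧
        ∃ E : Finset S, ETri M E ∧ ∀ j, (s j).a.J ⊆ E) ∨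
      2 + c * K ≤ ∑ j ∈ Finset.range K, ang M 0 v (s j).a (s j).b

/-- LE1: type 1: every step joins type 0 and type 2, weight `1/2`, so `K` is even; `K = 2` would be a backtrack. (Compare `LP1`.) -/
def Stmt_LE1 : Prop :=
  ∀ (S : Type) [DecidableEq S] (M : CoxeterMatrix S) (v : Vtx (gen M)) (K : ℕ)
    (s : ℕ → Stp (Vtx (gen M))), v.ty = 1 → TLoop Vtx.ad v K s →
      Even K ∧ 4 ≤ K ∧ ∑ j ∈ Finset.range K, ang M 0 v (s j).a (s j).b = K / 2

/-- LE2 (uses LK2, DSLG): type 2, `m = lb M v.J`: every step joins type 0 and type 1 and has weight `1/(2m)`; `K` is even; `4m ≤ K`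
as in the proof of `LP2` of helper91: rotate so that the path starts at a type 1 vertex `n` of label `a`, `b` the other
label; LK2 with `p = n`: `k` odd, `K = 2(k+1)`; `y` and `y * altP b a l` are both in `n`, so `altP b a l * a^e = 1`, `e ≠ 0` as the
type 0 vertices before and after `n` are different; `l ++ [e]` has even length `k + 1`, DSLG: `k + 1 ≥ 2m`. -/
def Stmt_LE2 : Prop :=
  ∀ (S : Type) [DecidableEq S] (M : CoxeterMatrix S), (∀ s t, M s t ≠ 0) →
    ∀ (v : Vtx (gen M)) (K : ℕ) (s : ℕ → Stp (Vtx (gen M))), v.ty = 2 → TLoop Vtx.ad v K s →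
      Even K ∧ 4 * lb M v.J ≤ K ∧
        ∑ j ∈ Finset.range K, ang M 0 v (s j).a (s j).b = K / (2 * (lb M v.J : ℝ))

/-- LE (uses LE0, LE1, LE2): all types together, with a common constant. Type 1: `K = 4` or
`K ≥ 6` and `K/2 ≥ 2 + K/6`. Type 2: `K = 4m` or `K ≥ 4m + 1`, `K/(2m) - 2 = (K - 4m)/(2m) ≥ K / (2m(4m+1))`; `m` is bounded. -/
def Stmt_LE : Prop :=
  ∀ (S : Type) [Finite S] [DecidableEq S] (M : CoxeterMatrix S), ETyp M → ∃ c : ℝ, 0 < c ∧
    ∀ (v : Vtx (gen M)) (K : ℕ) (s : ℕ → Stp (Vtx (gen M))), TLoop Vtx.ad v K s →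
      (K = fl M v ∧ ∑ j ∈ Finset.range K, ang M 0 v (s j).a (s j).b = 2 ∧
        (v.ty = 0 → ∃ E : Finset S, ETri M E ∧ ∀ j, (s j).a.J ⊆ E)) ∨
      2 + c * K ≤ ∑ j ∈ Finset.range K, ang M 0 v (s j).a (s j).b

/-- NPC0 (uses LE): nonpositive curvature, and lower bounds for the angles. `loop`: for a list `ω` satisfying the
hypotheses let `K = ω.length`, `s j = ω[j % K]`; it is a `TLoop`. The rest as `NPC` of helper91 (with `ε = 0`). Angles: type 0
`1/2 - 1/(2m) ≥ 1/4`, type 1 `1/2`, type 2 `1/(2m)`, `m` bounded. -/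
def Stmt_NPC0 : Prop :=
  ∀ (S : Type) [Finite S] [DecidableEq S] (M : CoxeterMatrix S), ETyp M →
    NP0 (V := Vtx (gen M)) Vtx.ad (ang M 0) ∧ ∃ c : ℝ, 0 < c ∧
      ∀ u v w : Vtx (gen M), u.ad v → v.ad w → u.ad w →
        c ≤ ang M 0 u v w ∧ (u.ty ≠ 2 → 1 / 4 ≤ ang M 0 u v w)

/-! ## Filling closed walks -/

open Classical in
/-- GBX (uses GBW, ASPH0, NPC0, LE, EXF, TTOK): the loop system of a closed walk `l ≠ []`. EXF: `l` has a filling, let `D` be its
chain and `n` minimal for `D`. GBW with `P = l.map (·, 2)`, `L = l.length`, `la = lb = 0`, `Y = ∅`, spheres by ASPH0. The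
accounting identity for `g = 0` is the third item. With `f = ang M 0`, `g v s = 2`, `J = 0`, `κ = 1`, `ψ = 0` (corner sum `1` by `NP0.sum`,
`NP0.comm`) and `2 card ι = L + n + 2`: `∑_i (wt i - 2) = L - 2`, `wt i = X.wt (ang M 0) (fun _ => 2) i`. With
`g = 1`, everything else `0`: the total number of gap steps is `L`. Every loop has `wt i ≥ 2`: no gap: LE; otherwise clear. If
the loop `i` is not flat then `K i ≤ (wt i - 2) / c + γ i`, `γ i` the number of its gap steps: no gap: LE (not flat excludes the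
first alternative); with gaps: `wt i = 2 γ i + (triangles) ≥ 2 γ i + c (K i - γ i)` and `2 γ i ≥ 2`. The sum is
`≤ (L - 2)/c + L`. -/
def Stmt_GBX : Prop :=
  ∀ (S : Type) [Finite S] [DecidableEq S] (M : CoxeterMatrix S), ETyp M → ∃ C : ℕ,
    ∀ l : List (Vtx (gen M)), l ≠ [] → CW Vtx.ad l →
    ∃ (D : C2 (gen M)) (n : ℕ) (X : LSys (Vtx (gen M))), Fill Vtx.ad TT l D n ∧
      LSOK Vtx.ad (fun _ => 0) (fun _ => 0) (fun _ => ∅) (fun _ _ => True) X ∧
      (∀ (B : Type) [AddCommGroup B] (F : Acc Vtx.ad TT B), (∀ v s, F.g v s = 0) →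
        X.tot (fun _ => 0) (fun _ => 0) F = n • F.κ - F.ψ D) ∧
      (∑ i, if X.Flat (ang M 0) i then 0 else X.K i) ≤ C * l.length

/-- FLAT (uses NPC0, LE, LNK): flat loops of type 1 and 2: opposite link vertices are straight, and link vertices which
are closer than that are different. At a type 1 (resp. 2) vertex every step has weight `1/2` (resp. `1/(2m)`), so the half loop
`s j, …, s (j + K/2 - 1)` has weight `1`, LNK (b). A shorter nonempty piece has weight `< 2`, LNK (a). -/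
def Stmt_FLAT : Prop :=
  ∀ (S : Type) [Finite S] [DecidableEq S] (M : CoxeterMatrix S), ETyp M →
    ∀ (v : Vtx (gen M)) (K : ℕ) (s : ℕ → Stp (Vtx (gen M))), v.ty ≠ 0 → TLoop Vtx.ad v K s →
      ∑ j ∈ Finset.range K, ang M 0 v (s j).a (s j).b = 2 →
      K = fl M v ∧ (∀ j, Str Vtx.ad (ang M 0) v (s j).a (s (j + K / 2)).a ∧
        Str Vtx.ad (ang M 0) v (s (j + K / 2)).a (s j).a) ∧
      (∀ i j, i < j → j < i + K → (s i).a ≠ (s j).a) ∧
      (∀ j, (s (j + 2)).a.ty = (s j).a.ty) ∧ (∀ j, (s (j + 1)).a.ty ≠ (s j).a.ty)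

/-- ISOQ (uses GBX, TAU, ISQA, FLAT, LE, NPC0, EXF, TTOK): quadratic isoperimetric inequality. `l = []`: `D = 0`, `n = 0`. Let
`X` be as in GBX. Positions: `I₀ = Σ i : X.ι, Fin (X.K i)`; the position `x = (i,j)` is the junction between `s i j` and `s i (j+1)`;
`vt x = X.v i`, `bt x = (s i (j+1)).a`, `lab x = (vt x, bt x, rsd (s i j), lsd (s i (j+1)))`, `sw (v,b,L,R) = (b,v,R,L)`.
For `J : Λ → ℤ` with `J a + J (sw a) = 0` use `Acc` with `f = g = κ = ψ = 0` and this `J`: `∑_x J (lab x) = 0`. TAU: a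
permutation `τ` of `I₀` with `lab (τ x) = sw (lab x)`; so `vt (τ x) = bt x`, `bt (τ x) = vt x`. Let `I` be the set of positions with
`vt x`, `bt x` both of type `≠ 0` (it is stable under `τ`). `R x y` (`x, y ∈ I`): the loop of `τ x = (i',j')` is flat and
`y = (i', j' + K/2 mod K)`. By FLAT `y` is in `I` (same type of link vertex), `vt y = bt x` and
`Str (vt y) (bt y) (vt x)`, `Str (vt y) (vt x) (bt y)`. `R` is functional and injective. A position `x ∈ I` is terminal iff the loop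
of `τ x` is not flat, so there are at most `C |l|` terminal positions (`τ` is injective, GBX). `Ω` = flat loops of type 2;
`j₀ ∈ {0,1}` such that `bt (i,j₀)` has type 1; `x₀ = (i,j₀)`, `x₁ = (i,j₀+2)` (`K = 4m ≥ 8`). `bt x₀ ≠ bt x₁` (FLAT). If
`R z x₁` then `τ z = (i, j₀ + 2 + K/2 mod K)` and `vt z = bt (τ z)` is the link vertex at the position `j₀ + 2 + K/2`, different from
`bt x₀` by FLAT (`2 + K/2 < K`). ISQA: `card Ω ≤ (C|l|)²`. Finally `n = ∑_{i of type 2} (number of triangle steps)`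
(`Acc` with `f u a b = 1` if `u` has type 2, else `0`; `κ = 1`, `ψ = 0`: exactly one vertex of a triangle has type 2), and this is
at most `4 m_max card Ω + C |l|`. -/
def Stmt_ISOQ : Prop :=
  ∀ (S : Type) [Finite S] [DecidableEq S] (M : CoxeterMatrix S), ETyp M → ∃ C : ℕ,
    ∀ l : List (Vtx (gen M)), CW Vtx.ad l →
      ∃ (D : C2 (gen M)) (n : ℕ), Fill Vtx.ad TT l D n ∧ n ≤ C * l.length ^ 2

/-- CYCD: a 1-cycle is a sum of closed walks without cancellation. Induction on `nf c`. If `c ≠ 0` give every edge of its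
support the direction in which its coefficient is positive. `bd1 c = 0`: every vertex with an incoming edge has an
outgoing one. Follow the edges until a vertex is repeated: a closed walk `l` without repeated vertices (length `≥ 3`), all
of whose edges are positively directed edges of `c`, all different; `nf (c - cch l) = nf c - l.length`. -/
def Stmt_CYCD : Prop :=
  ∀ (G S : Type) [Group G] (g : S → G) (c : C1 g),
    (∀ p ∈ c.support, p.1.ty < p.2.ty ∧ p.1.ad p.2) → bd1 g c = 0 →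
    ∃ ls : List (List (Vtx g)), (∀ l ∈ ls, l ≠ [] ∧ CW Vtx.ad l) ∧ (ls.map cch).sum = c ∧
      (ls.map List.length).sum ≤ nf c

/-- ISOC (uses ISOQ, CYCD, INJ2, BD, BD1): chain version. `c = bd2 T` is a cycle supported on edges (`bd1 (bd2 T) = 0` for flagged
`T`). CYCD, fill each closed walk by ISOQ; the sum `D` of the chains has `bd2 D = c = bd2 T`, so `D = T` (INJ2), and
`nrm T ≤ ∑ C |l_i|² ≤ C (nf c)²`. -/
def Stmt_ISOC : Prop :=
  ∀ (S : Type) [Finite S] [DecidableEq S] (M : CoxeterMatrix S), ETyp M → ∃ C : ℕ,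
    ∀ T : C2 (gen M), Flagged T → nrm T ≤ C * (nf (bd2 (gen M) T)) ^ 2

/-! ## Planes -/

/-- DEC (uses GBX, LE, BD): a closed walk bounds a chain which is, up to a linear error, a sum of chains in the planes of the
Euclidean triples, with boundaries of linear total length.
Let `X` be as in GBX. For a flat loop `i` of type 0 let `E_i` be the Euclidean triple given by LE, and
`κ_i = (E_i, class of y)`, `v i = {y}`. (1) `Acc` with `f u a b = TT u a b` if `u` has type 0, else `0`; `g = J = κ = 0`,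
`ψ = id` (for a triangle `u,v,c` exactly one vertex has type 0 and `TT u c v = TT c v u = TT v u c = - TT u v c`):
`D = - ∑_{i of type 0} ∑_j TT (v i) (s i j).a (s i j).b` (sum over the triangle steps). Let `σ` be the part of the non-flat loops
(`nrm σ ≤ C |l|`) and `T κ` the part of the flat loops with `κ_i = κ`. (2) For a flat loop of type 0 the boundary of its part is
`- ∑_j EE (s i j).a (s i j).b` (the edges at `v i` cancel). (3) Fix `κ`. Let `J v b L R`, for `v` of type 0, `b` of type 1,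
`L = inl p`, `R = inl q`, `p, q` of type 2 and the plane of `(v, p.J ∪ q.J)` equal to `κ` (i.e. `κ.1 = p.J ∪ q.J` and `κ.2` = class of
`y`, `v = {y}`), be `EE p b + EE b q`; for `v` of type 1, `b` of type 0 be `- J b v R L`; in all other cases `0`. `Acc` with this `J` and
`f = g = κ = ψ = 0`: `∑_x J (lab x) = 0`. (3a) Flat loop of type 0: at a junction over a type 1 link vertex `b` the neighbours `p, q`
are different type 2 vertices with `b.J ⊂ p.J, q.J ⊆ E_i`, so `p.J ∪ q.J = E_i`: the junctions contribute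
`∑_j EE (s i j).a (s i j).b` if `κ_i = κ`, `0` otherwise (junctions over type 2 vertices: `0`). (3b) Flat loop of type 1, `w = v i`, with
link vertices `o₁, q₁, o₂, q₂` (types 0, 2, 0, 2): the junction over `o₁` has sides `q₂, q₁`, contributing
`-(EE q₁ w + EE w q₂)` if the plane of `(o₁, q₁.J ∪ q₂.J)` is `κ`, the one over `o₂` contributes `-(EE q₂ w + EE w q₁)` if the plane
of `(o₂, q₁.J ∪ q₂.J)` is `κ`; the two planes are equal (`o₁, o₂ ∈ w`, `w.J ⊂ q₁.J`): the sum is `0`. (3c) So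
`bd2 (T κ) = ± ∑ J (lab x)` over the junctions `x` of the non-flat loops, each `J (lab x)` has norm at most `2` and is nonzero for
at most one `κ`. So `∑_κ nf (bd2 (T κ)) ≤ 2 C |l|`. `Ks` = the set of all `κ_i`. -/
def Stmt_DEC : Prop :=
  ∀ (S : Type) [Finite S] [DecidableEq S] (M : CoxeterMatrix S), ETyp M → ∃ C : ℕ,
    ∀ l : List (Vtx (gen M)), l ≠ [] → CW Vtx.ad l →
    ∃ (D : C2 (gen M)) (n : ℕ) (σ : C2 (gen M)) (Ks : Finset (Pl M)) (T : Pl M → C2 (gen M)),
      Fill Vtx.ad TT l D n ∧ D = σ + ∑ κ ∈ Ks, T κ ∧ nrm σ ≤ C * l.length ∧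
      (∀ κ ∈ Ks, ETri M κ.1 ∧ Flagged (T κ) ∧
        ∀ t ∈ (T κ).support, OnP M κ t.1 ∧ OnP M κ t.2.1 ∧ OnP M κ t.2.2) ∧
      ∑ κ ∈ Ks, nf (bd2 (gen M) (T κ)) ≤ C * l.length

/-! ## Commuting elements -/

/-- QUAD (uses WCH): closed walk of a quadrilateral `P Q (P')⁻¹ (Q')⁻¹`. -/
def Stmt_QUAD : Prop :=
  ∀ (G S : Type) [Group G] (g : S → G) (a b c d : Vtx g) (P Q P' Q' : List (Vtx g)),
    Wk P a b → Wk Q b c → Wk P' d c → Wk Q' a d →
    ∃ l : List (Vtx g), CW Vtx.ad l ∧ l.length ≤ P.length + Q.length + P'.length + Q'.length ∧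
      cch l = wch P + wch Q - wch P' - wch Q'

/-- SQS (uses WCH, ACT, INJ2; the computation is in `X2.lean` of helper91): the chain of the big square is the sum of the
translates of the chain of the small square. -/
def Stmt_SQS : Prop :=
  ∀ (S : Type) [Finite S] (M : CoxeterMatrix S), ETyp M → ∀ h x : Art M, Commute h x →
    ∀ (v : Vtx (gen M)) (α β : List (Vtx (gen M))) (D : C2 (gen M)), Wk α v (h • v) →
      Wk β v (x • v) → Flagged D →
      bd2 (gen M) D = (wch α - act1 x (wch α)) - (wch β - act1 h (wch β)) →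
      ∀ (m n : ℕ) (D' : C2 (gen M)), Flagged D' →
        bd2 (gen M) D' = (wch (pw h α m) - act1 (x ^ n) (wch (pw h α m))) -
          (wch (pw x β n) - act1 (h ^ m) (wch (pw x β n))) →
        D' = ∑ i ∈ Finset.range m, ∑ j ∈ Finset.range n, mv (PT (gen M) h ^ i * PT (gen M) x ^ j) D

/-- OSUM (uses ZZS, ZZ2, ZPER, BD1, ACT): for a free pair some orbit sum of the chain of the small square is not zero.
Otherwise ZZS (1): `D = (P - h P) + (Q - x Q)`, `P, Q` flagged; `(1-x)(A₀ - bd2 Q) = (1-h)(B₀ + bd2 P)`, `A₀ = wch α`,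
`B₀ = wch β`; ZZ2: `A₀ - bd2 Q = (1-h) E`; apply `bd1`: `bd1 E + v` is `h`-invariant, so it is `0` by ZPER, against the sum of the
coefficients. This is the last part of the proof of X2 (`X2.lean`, `H90.no_E`). -/
def Stmt_OSUM : Prop :=
  ∀ (S : Type) [Finite S] (M : CoxeterMatrix S) (h x : Art M), FP M h x →
    ∀ (v : Vtx (gen M)) (α β : List (Vtx (gen M))) (D : C2 (gen M)), Wk α v (h • v) →
      Wk β v (x • v) → Flagged D →
      bd2 (gen M) D = (wch α - act1 x (wch α)) - (wch β - act1 h (wch β)) →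
      ∃ t, osum (PT (gen M) h) (PT (gen M) x) t D ≠ 0

/-- T5C: counting (abstract, real numbers). A square `B_N = {K, …, N-K-1}²` of pairs; each pair is either in a set of
size at most `C N` or in one of the sets `Z_κ`, `κ ∈ Ks`, with `|Z_κ|² ≤ N * (C * L_κ ^ 2)`, `∑ L_κ ≤ C N`. Impossible for large `N`:
`(N - 2K)² ≤ C N + √(C N) C N`. -/
def Stmt_T5C : Prop :=
  ∀ (C K : ℕ), ∃ N : ℕ, 2 * K < N ∧ ∀ (ι : Type) (Ks : Finset ι) (Z L : ι → ℕ) (b : ℕ),
    b ≤ C * N → (∀ κ ∈ Ks, Z κ ^ 2 ≤ N * (C * L κ ^ 2)) → ∑ κ ∈ Ks, L κ ≤ C * N →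
    b + ∑ κ ∈ Ks, Z κ < (N - 2 * K) ^ 2

/-- T5 (uses DEC, ISOC, QUAD, SQS, OSUM, ZZS, T5C, CONN, BD, WCH, INJ2): a free pair has powers in the stabiliser of a plane.
Let `v` be a vertex, `α, β` walks from `v` to `h v`, `x v`, `D` the chain of the small square (QUAD, EXF), `t` with
`s = osum t D ≠ 0` (OSUM); `t` may be taken in the support of `D`, so it is a flag triangle, `t.1 = {y}`. For `N` the closed walk of
the big square (`m = n = N`; QUAD, WCH: length `≤ C' N`; it is not empty as `h^N v ≠ v`) has by DEC the chain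
`D_N = σ + ∑_κ T κ`; `D_N = ∑_{i,j<N} h^i x^j D` (SQS, via BD and INJ2), so by ZZS (2) (the orbit is free because the pair is) its value
at `h^i x^j t` is `s ≠ 0` for `K ≤ i, j < N - K`. So each such pair `(i,j)` satisfies `σ (h^i x^j t) ≠ 0` (at most
`nrm σ` pairs: the points are different) or `(i,j) ∈ Z_κ` for some `κ ∈ Ks`, `Z_κ = {(i,j) : T κ (h^i x^j t) ≠ 0}`. Let
`κ = (E, κ₂)`. If `(i,j) ∈ Z_κ` then `h^i x^j y` is in `κ₂`, i.e. `h^i x^j κ_E = κ₂`, `κ_E = y P_E`. `|Z_κ| ≤ nrm (T κ) ≤ C L_κ²` by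
ISOC, `L_κ = nf (bd2 (T κ))`. Suppose that for no Euclidean `E` both `h^k κ_E = κ_E` and `x^l κ_E = κ_E` for some `k, l > 0`. Then
`|Z_κ| ≤ N`: if no `h^k`, `k > 0`, fixes `κ_E`, then `(i,j) ↦ j` is injective on `Z_κ` (`h^i x^j κ_E = h^{i'} x^j κ_E` gives
`h^{i-i'} κ_E = κ_E`); similarly for `x`. So `|Z_κ|² ≤ N C L_κ²`, contradiction with T5C. So `h^k, x^l ∈ y P_E y⁻¹`, and the power
`k l` works for both. -/
def Stmt_T5 : Prop :=
  ∀ (S : Type) [Finite S] (M : CoxeterMatrix S), ETyp M → ∀ h x : Art M, FP M h x →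
    ∃ (E : Finset S) (y : Art M) (k : ℕ), ETri M E ∧ 0 < k ∧ y⁻¹ * h ^ k * y ∈ par (gen M) E ∧
      y⁻¹ * x ^ k * y ∈ par (gen M) E

/-- U0 (uses OSUM, ZZS, QUAD, ISOQ, INJ2, BD, WCH, CONN, ACT): the orbit of a vertex under one element of a free pair is not
bounded. Suppose for all `N` there is a walk `β_N` from `y` to `h^N y` with `β_N.length ≤ L₀`. Let `η` be a walk from `y` to `x y`,
`α` from `y` to `h y`, `D₁` the chain of a filling of the square of `α, η`: `bd2 D₁ = (1-x) wch α - (1-h) wch η`. The square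
`β_N · h^N η · (x β_N)⁻¹ · η⁻¹` has length at most `2 L₀ + 2 |η|`; by ISOQ it has a filling with chain `D'_N`,
`nrm D'_N ≤ B` (independent of `N`). `G_N` = chain of a filling of `α^{(N)} β_N⁻¹` (`α^{(N)} = pw h α N`). Then
`∑_{i<N} h^i D₁ = D'_N + G_N - x G_N` by INJ2: both sides have the boundary `(1-x) wch α^{(N)} - (1 - h^N) wch η` (`wch α^{(N)} = ∑_{i<N} h^i wch α`).
Take `osum` at any `t` (ZZS (3)): `N * osum t D₁ = osum t D'_N`, so `N |osum t D₁| ≤ B` for all `N`: `osum t D₁ = 0` for all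
`t`, against OSUM. -/
def Stmt_U0 : Prop :=
  ∀ (S : Type) [Finite S] (M : CoxeterMatrix S), ETyp M → ∀ h x : Art M, FP M h x →
    ∀ (y : Vtx (gen M)) (L₀ : ℕ), ∃ N : ℕ, ∀ l, Wk l y (h ^ N • y) → L₀ < l.length

/-! ### Two parallel planes (U1)

`kW, kla, klb`: weight and labels of the gap kinds: `2`: weight 2, labels 0, 0; `3`: weight 1, labels 1, 1 (inside the side `β₁`);
`4`: weight 1, labels 2, 2 (inside `β₂`); `5`: weight 2, `la = 1`, `lb = 0`; `6`: weight 2, `la = 0`, `lb = 1`; `7`: weight 2, `la = 2`, `lb = 0`;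
`8`: weight 2, `la = 0`, `lb = 2`. -/

/-- weights of the gap kinds -/
noncomputable def kW (k : ℕ) : ℝ := if k = 3 ∨ k = 4 then 1 else 2
/-- labels at `a` -/
def kla (k : ℕ) : ℕ := if k = 3 ∨ k = 5 then 1 else if k = 4 ∨ k = 7 then 2 else 0
/-- labels at `b` -/
def klb (k : ℕ) : ℕ := if k = 3 ∨ k = 6 then 1 else if k = 4 ∨ k = 8 then 2 else 0

/-- the vertices of the cosets `y₁ P_E`, `y₂ P_E` -/
def YY {S : Type} (M : CoxeterMatrix S) (E : Finset S) (y₁ y₂ : Art M) (i : ℕ) :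
    Set (Vtx (gen M)) :=
  {v | (i = 1 ∧ OnP M ⟨E, y₁⟩ v) ∨ (i = 2 ∧ OnP M ⟨E, y₂⟩ v)}

/-- what is known about the gap steps -/
def GapU {S : Type} (M : CoxeterMatrix S) (E : Finset S) (y₁ y₂ : Art M) (v : Vtx (gen M))
    (s : Stp (Vtx (gen M))) : Prop :=
  2 ≤ s.k ∧ s.k ≤ 8 ∧ v.ad s.a ∧ v.ad s.b ∧
    (kla s.k ≠ 0 → v ∈ YY M E y₁ y₂ (kla s.k) ∧ s.a ∈ YY M E y₁ y₂ (kla s.k)) ∧
    (klb s.k ≠ 0 → v ∈ YY M E y₁ y₂ (klb s.k) ∧ s.b ∈ YY M E y₁ y₂ (klb s.k)) ∧
    (s.k = 3 ∨ s.k = 4 → s.a ≠ s.b)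

open Classical in
/-- U1A (uses GBW, ASPH0, NPC0, UNI0, EXF, FBR, FROT, WCH, TTOK, CONN): the loop system of a strip.
`κ₁ = y₁ P_E ≠ κ₂ = y₂ P_E`, `h` in both stabilisers, `δ` a walk from `y₁` to `y₂`, `N` with `h^N ≠ 1`. Among all pairs of walks
`(β₁, β₂)`, `β_i` inside `κ_i` (all vertices `OnP`) from `y_i` to `h^N y_i` (they exist: `y_i⁻¹ h^N y_i ∈ P_E` is a word in the
generators of `E`) take one for which the minimal number `n` of triangles of a filling of the closed walk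
`l = β₁ · h^N δ · β₂⁻¹ · δ⁻¹` is as small as possible, and among these one with `|β₁| + |β₂|` as small as possible. (All four
sides have at least one edge: `h^N y_i ≠ y_i`, `y₁ ≠ y₂`.) GBW for `l` with the kinds: `3` inside `β₁`, `4`
inside `β₂⁻¹`, `2` inside `h^N δ`, `δ⁻¹`, `5` at `y₁` (next vertex on `β₁`), `6` at `h^N y₁`, `7` at `h^N y₂`, `8` at `y₂`. The
hypothesis on `Y`: a third vertex `c ∈ κ₁` inserted in an edge of `β₁` gives another `β₁`, so `n ≤ n'`. `GapU`: `s.a ≠ s.b` for kinds 3, 4: a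
backtrack of `β_i` could be removed (FBR), the number of triangles does not grow (the chain is the same), the length drops. The
sum: `Acc` with `f = ang M 0`, `g = kW`, `κ = 1`: `∑_i (wt i - 2) = ∑_positions (kW - 1) - 2 = #(kinds ≠ 3, 4) - 2 = 2 |δ| - 2`
(`|δ|` = number of vertices of `δ`: there are `2 (|δ| - 1) + 2` positions of kinds `≠ 3, 4`). -/
def Stmt_U1A : Prop :=
  ∀ (S : Type) [Finite S] [DecidableEq S] (M : CoxeterMatrix S), ETyp M →
    ∀ (E : Finset S) (y₁ y₂ h : Art M) (δ : List (Vtx (gen M))), y₁⁻¹ * y₂ ∉ par (gen M) E →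
    y₁⁻¹ * h * y₁ ∈ par (gen M) E → y₂⁻¹ * h * y₂ ∈ par (gen M) E → Wk δ (o0 M y₁) (o0 M y₂) →
    ∀ N : ℕ, h ^ N ≠ 1 → ∃ (β₁ : List (Vtx (gen M))) (X : LSys (Vtx (gen M))),
      Wk β₁ (o0 M y₁) (h ^ N • o0 M y₁) ∧
      LSOK Vtx.ad kla klb (YY M E y₁ y₂) (GapU M E y₁ y₂) X ∧
      (∑ i, (X.wt (ang M 0) kW i - 2) = 2 * (δ.length : ℝ) - 2) ∧
      (∑ i, ∑ j ∈ Finset.range (X.K i), (if (X.s i j).k = 0 ∨ (X.s i j).k = 3 ∨ (X.s i j).k = 4
        then 0 else 1)) ≤ 2 * δ.length ∧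
      (∑ i, ∑ j ∈ Finset.range (X.K i), (if kla (X.s i j).k = 1 then
        (EE (X.v i) (X.s i j).a : C1 (gen M)) else 0)) = wch β₁ ∧
      (∀ (B : Type) [AddCommGroup B] (F : Acc Vtx.ad TT B), (∀ v s, F.g v s = 0) →
        (∀ u v w, F.f u v w = 0) → F.κ = 0 → F.ψ = 0 → X.tot kla klb F = 0)

/-- U1B (uses NPC0, LE): loops of a strip. Let `γ` be the number of gaps of the loop `i`, `wt` its weight.
Claim: `2 ≤ wt`, and if the vertex has type 0 and the loop has a gap and a triangle, then `2 + 1/6 ≤ wt` and `γ ≤ 13 (wt - 2)`.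
Also a junction between a triangle and a gap side of label `≠ 0` does not occur at a type 2 vertex, and at a type 1 vertex its
link vertex has type 0. Proof. `YY i` facts: if `v ∈ YY i` has type 2 then all vertices adjacent to `v` are in `YY i`; if `v ∈ YY i` has
type 1 all type 0 vertices adjacent to `v` are in `YY i`; if `v ∈ YY i` has type 0, an adjacent `c` is in `YY i` iff
`c.J ⊆ E`. Let `s` be a gap with label `i ≠ 0` at the side of the link vertex `b` (`b ∈ YY i`, `v ∈ YY i`), next to the triangle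
with vertices `v, b, c`; by `cmp`, `c ∉ YY i`. So `v` has not type 2, and if it has type 1 then `c` has type 2, `b` type 0. Weights:
`γ = 0`: LE (or NP0). `γ ≥ 2`: `wt ≥ γ + (triangles)`; with a triangle (type 0, angle `≥ 1/4`) `wt ≥ γ + 1/4`. `γ = 1`, kind
`≠ 3, 4`: `wt ≥ 2`, with a triangle at type 0 `≥ 2 + 1/4`. `γ = 1`, kind `3` or `4`, label `i`: `K ≥ 2` (otherwise `s.b = s.a` by `cmp`,
excluded by `GapU`), so there is a triangle, `v` has type 0 or 1. Type 1: `a, b` have type 0, so the number of triangle steps is even,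
at least 2, weight `≥ 2 · 1/2 = 1`. Type 0: the neighbours of `b` and `a` in the loop are not in `YY i`; a type 2 link vertex
`b ∈ YY i` has only neighbours in `YY i`, so `b` and `a` have type 1, labels `σ₀, σ_k ∈ E`; the path `b → a` is
`σ₀, {σ₀,σ₁}, σ₁, …, σ_k` with `σ₁ ∉ E`, `k ≥ 2`, `σ_{i} ≠ σ_{i+1}, σ_{i+2}`; its weight is
`∑ (1 - 1/M (σ_i) (σ_{i+1})) ≥ 7/6` (the first two terms, as in LE0, `σ₀, σ₁, σ₂` distinct). So `wt ≥ 1 + 7/6`. Finally
`γ ≤ 13 (wt - 2)`: `γ = 1` : `1 ≤ 13/6`; `γ ≥ 2`: `wt - 2 ≥ γ - 2 + 1/4 ≥ γ/13`. -/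
def Stmt_U1B : Prop :=
  ∀ (S : Type) [Finite S] [DecidableEq S] (M : CoxeterMatrix S), ETyp M →
    ∀ (E : Finset S) (y₁ y₂ : Art M) (X : LSys (Vtx (gen M))),
      LSOK Vtx.ad kla klb (YY M E y₁ y₂) (GapU M E y₁ y₂) X →
      (∀ i, 2 ≤ X.wt (ang M 0) kW i) ∧
      (∀ i, (X.v i).ty = 0 → (∃ j, (X.s i j).k ≠ 0) → (∃ j, (X.s i j).k = 0) →
        (((Finset.range (X.K i)).filter (fun j => (X.s i j).k ≠ 0)).card : ℝ) ≤
          13 * (X.wt (ang M 0) kW i - 2)) ∧
      (∀ i j, (X.s i j).k = 0 → kla (X.s i (j + 1)).k ≠ 0 →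
        (X.v i).ty ≠ 2 ∧ ((X.v i).ty = 1 → (X.s i (j + 1)).a.ty = 0)) ∧
      (∀ i j, klb (X.s i j).k ≠ 0 → (X.s i (j + 1)).k = 0 →
        (X.v i).ty ≠ 2 ∧ ((X.v i).ty = 1 → (X.s i (j + 1)).a.ty = 0))

/-- U1C (uses U1A, U1B): the chain of the side `β₁` has norm at most a constant times `|δ|`. Let `X` be as in U1A.
`wch β₁ = ∑ EE v a` over the gap steps `s i j` with `kla = 1`; the junction before such a step (between `s i (j-1)` and
`s i j`, over the link vertex `a`) has right side `inr 1`. (i) Junctions with both sides `inr 1`: the sum of `EE v b` over them is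
`0` (`Acc` with `J v b L R = EE v b` if `L = R = inr 1`, `0` otherwise; `EE b v = - EE v b`; `f = g = κ = ψ = 0`). (ii) Left side a gap
side with label `≠ 1`: label `2` is impossible (`v ∈ YY 1 ∩ YY 2 = ∅` as `y₁⁻¹ y₂ ∉ P_E`), label `0`: the step `s i (j-1)` has kind
`≠ 0, 3, 4`: at most `2 |δ|` such steps. (iii) Left side a triangle: by U1B `v` has type 0 or 1. Type 0: the loop contains a gap and a
triangle; the number of such junctions is at most the sum of the `γ` of these loops, `≤ 13 ∑ (wt - 2) ≤ 26 |δ|`. Type 1: `b` has type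
0; compare with the junctions at `b` over `v` with left side `inr 1` and right side a triangle: the numbers are equal (`Acc` with
values in `ℤ`, `J v b L R = 1` if `v` has type 1, `b` type 0, `L = inl _`, `R = inr 1`, `= -1` if `v` has type 0, `b` type 1,
`L = inr 1`, `R = inl _`, `0` otherwise), and the latter are at type 0 vertices in loops with a gap and a triangle: `≤ 26 |δ|`. Total:
`nf (wch β₁) ≤ 2 |δ| + 52 |δ|` (`nf (EE v b) ≤ 1`). -/
def Stmt_U1C : Prop :=
  ∀ (S : Type) [Finite S] [DecidableEq S] (M : CoxeterMatrix S), ETyp M →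
    ∀ (E : Finset S) (y₁ y₂ h : Art M) (δ : List (Vtx (gen M))), y₁⁻¹ * y₂ ∉ par (gen M) E →
    y₁⁻¹ * h * y₁ ∈ par (gen M) E → y₂⁻¹ * h * y₂ ∈ par (gen M) E → Wk δ (o0 M y₁) (o0 M y₂) →
    ∀ N : ℕ, h ^ N ≠ 1 → ∃ β₁ : List (Vtx (gen M)), Wk β₁ (o0 M y₁) (h ^ N • o0 M y₁) ∧
      nf (wch β₁) ≤ 54 * δ.length

/-- U1 (uses U1C, ZG2, BD1, CONN): if `h` stabilises two different cosets of `P_E` then the orbit of `y₁` is bounded. If
`h^N = 1` take the walk `[y₁]`. Otherwise `wch β₁` has boundary `h^N y₁ - y₁` (BD1); ZG2 gives a walk without repeated vertices in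
its support (edges of the support of `wch β₁` join adjacent vertices of the walk `β₁`); it has at most
`2 * card support + 1 ≤ 2 nf (wch β₁) + 1` vertices. -/
def Stmt_U1 : Prop :=
  ∀ (S : Type) [Finite S] (M : CoxeterMatrix S), ETyp M →
    ∀ (E : Finset S) (y₁ y₂ h : Art M), y₁⁻¹ * y₂ ∉ par (gen M) E →
    y₁⁻¹ * h * y₁ ∈ par (gen M) E → y₂⁻¹ * h * y₂ ∈ par (gen M) E →
    ∃ L₀ : ℕ, ∀ N : ℕ, ∃ l, Wk l (o0 M y₁) (h ^ N • o0 M y₁) ∧ l.length ≤ L₀

/-- STC (uses U0, U1): the plane stabiliser contains the centralisers. Let `g` commute with `h`; `y₁ = y`, `y₂ = g y`;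
`h^k` stabilises `y P_E` and `g y P_E` (`(g y)⁻¹ h^k (g y) = y⁻¹ h^k y`). If `y⁻¹ g y ∉ P_E`, U1 for `h^k` gives bounded walks from `y` to
`(h^k)^N y`, against U0 for the free pair `(h^k, x)`. -/
def Stmt_STC : Prop :=
  ∀ (S : Type) [Finite S] (M : CoxeterMatrix S), ETyp M → ∀ (h x : Art M), FP M h x →
    ∀ (E : Finset S) (y : Art M) (k : ℕ), 0 < k → y⁻¹ * h ^ k * y ∈ par (gen M) E →
      ∀ g : Art M, Commute g h → y⁻¹ * g * y ∈ par (gen M) E

end Pool.HE
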