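import Pool.Agent.Work.MP_7084a3_full.Defs

set_option autoImplicit false

/-! # Basic lemmas on `ETyp` -/

namespace Pool.HE

open Pool.HA

section
variable {S : Type}

theorem ETyp.two_le {M : CoxeterMatrix S} (h : ETyp M) {s t : S} (hst : s ≠ t) :
    2 ≤ M s t := by
  have h0 := h.ne_zero s t
  have h1 := M.off_diagonal s t hst
  omega

/-- `M s t = 2` for at most one `t` -/
theorem ETyp.match {M : CoxeterMatrix S} (h : ETyp M) {s t r : S} (hst : s ≠ t)
    (hsr : s ≠ r) (htr : t ≠ r) (h2 : M s t = 2) : 3 ≤ M s r := by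
  by_contra hc
  have h3 : M s r = 2 := by
    have := h.two_le hsr
    omega
  have := h.hyp s t r hst htr hsr
  rw [h2, h3] at this
  have h4 : (0 : ℚ) < (M t r : ℚ)⁻¹ := by
    have := h.ne_zero t r
    positivity
  norm_num at this
  linarith [h4, this]

end

end Pool.HE
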