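import Pool.Agent.Work.MP_7084a3_h91.All
import Pool.Agent.Work.MP_7084a3_full.B.GBW
import Pool.Agent.Work.MP_7084a3_full.B.ASPH0
import Pool.Agent.Work.MP_7084a3_full.B.LE0
import Pool.Agent.Work.MP_7084a3_full.B.LE1
import Pool.Agent.Work.MP_7084a3_full.B.LK2
import Pool.Agent.Work.MP_7084a3_full.B.LE2
import Pool.Agent.Work.MP_7084a3_full.B.LE
import Pool.Agent.Work.MP_7084a3_full.B.NPC0
import Pool.Agent.Work.MP_7084a3_full.B.GBX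
import Pool.Agent.Work.MP_7084a3_full.B.TAU
import Pool.Agent.Work.MP_7084a3_full.B.COR
import Pool.Agent.Work.MP_7084a3_full.B.TRJ
import Pool.Agent.Work.MP_7084a3_full.B.ISQA
import Pool.Agent.Work.MP_7084a3_full.B.LNK
import Pool.Agent.Work.MP_7084a3_full.B.FLAT
import Pool.Agent.Work.MP_7084a3_full.B.ISOQ
import Pool.Agent.Work.MP_7084a3_full.B.UNI0
import Pool.Agent.Work.MP_7084a3_full.B.INJ2
import Pool.Agent.Work.MP_7084a3_full.B.X1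
import Pool.Agent.Work.MP_7084a3_full.B.F3
import Pool.Agent.Work.MP_7084a3_full.B.F4
import Pool.Agent.Work.MP_7084a3_full.B.STR
import Pool.Agent.Work.MP_7084a3_full.B.CYC
import Pool.Agent.Work.MP_7084a3_full.B.F6
import Pool.Agent.Work.MP_7084a3_full.B.F5
import Pool.Agent.Work.MP_7084a3_full.B.F10
import Pool.Agent.Work.MP_7084a3_full.B.CZ
import Pool.Agent.Work.MP_7084a3_full.B.BIG
import Pool.Agent.Work.MP_7084a3_full.B.F8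
import Pool.Agent.Work.MP_7084a3_full.B.INT
import Pool.Agent.Work.MP_7084a3_full.B.F7
import Pool.Agent.Work.MP_7084a3_full.B.TRI
import Pool.Agent.Work.MP_7084a3_full.B.RFU
import Pool.Agent.Work.MP_7084a3_full.B.DCOM
import Pool.Agent.Work.MP_7084a3_full.B.BAD1
import Pool.Agent.Work.MP_7084a3_full.B.DEC
import Pool.Agent.Work.MP_7084a3_full.B.CYCD
import Pool.Agent.Work.MP_7084a3_full.B.ISOC
import Pool.Agent.Work.MP_7084a3_full.B.QUAD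
import Pool.Agent.Work.MP_7084a3_full.B.SQS
import Pool.Agent.Work.MP_7084a3_full.B.ZZS
import Pool.Agent.Work.MP_7084a3_full.B.OSUM
import Pool.Agent.Work.MP_7084a3_full.B.T5C
import Pool.Agent.Work.MP_7084a3_full.B.T5
import Pool.Agent.Work.MP_7084a3_full.B.U0
import Pool.Agent.Work.MP_7084a3_full.B.U1A
import Pool.Agent.Work.MP_7084a3_full.B.U1B
import Pool.Agent.Work.MP_7084a3_full.B.U1C
import Pool.Agent.Work.MP_7084a3_full.B.ZG2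
import Pool.Agent.Work.MP_7084a3_full.B.U1
import Pool.Agent.Work.MP_7084a3_full.B.STC
import Pool.Agent.Work.MP_7084a3_full.B.BADX
import Pool.Agent.Work.MP_7084a3_full.B.RR
import Pool.Agent.Work.MP_7084a3_full.B.WBE
import Pool.Agent.Work.MP_7084a3_full.B.EL2
import Pool.Agent.Work.MP_7084a3_full.B.PRJ
import Pool.Agent.Work.MP_7084a3_full.B.DWNC
import Pool.Agent.Work.MP_7084a3_full.B.NEL1
import Pool.Agent.Work.MP_7084a3_full.B.CRY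
import Pool.Agent.Work.MP_7084a3_full.B.NEL2
import Pool.Agent.Work.MP_7084a3_full.B.PRODE
import Pool.Agent.Work.MP_7084a3_full.B.ORDB
import Pool.Agent.Work.MP_7084a3_full.B.GMI
import Pool.Agent.Work.MP_7084a3_full.B.SG3
import Pool.Agent.Work.MP_7084a3_full.B.SG4
import Pool.Agent.Work.MP_7084a3_full.B.SGN
import Pool.Agent.Work.MP_7084a3_full.B.FINP
import Pool.Agent.Work.MP_7084a3_full.B.INF3
import Pool.Agent.Work.MP_7084a3_full.B.NOFX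
import Pool.Agent.Work.MP_7084a3_full.B.TRIP
import Pool.Agent.Work.MP_7084a3_full.B.FXP
import Pool.Agent.Work.MP_7084a3_full.B.GLOB
import Pool.Agent.Work.MP_7084a3_full.B.DOM
import Pool.Agent.Work.MP_7084a3_full.B.MONO
import Pool.Agent.Work.MP_7084a3_full.B.EUC1
import Pool.Agent.Work.MP_7084a3_full.B.EUC2
import Pool.Agent.Work.MP_7084a3_full.B.K1
import Pool.Agent.Work.MP_7084a3_full.Assemble

set_option autoImplicit false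

/-! # All blocks of the full answer together -/

namespace Pool.HE

theorem S_GBW : Stmt_GBW := stmt_GBW
theorem S_ASPH0 : Stmt_ASPH0 := stmt_ASPH0
theorem S_LE0 : Stmt_LE0 := stmt_LE0
theorem S_LE1 : Stmt_LE1 := stmt_LE1
theorem S_LK2 : Stmt_LK2 := stmt_LK2
theorem S_LE2 : Stmt_LE2 := stmt_LE2 S_LK2 Pool.HA.S_DSLG
theorem S_LE : Stmt_LE := stmt_LE S_LE0 S_LE1 S_LE2
theorem S_NPC0 : Stmt_NPC0 := stmt_NPC0 S_LE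
theorem S_GBX : Stmt_GBX := stmt_GBX S_GBW S_ASPH0 S_NPC0 S_LE Pool.HA.S_EXF Pool.HA.S_TTOK
theorem S_TAU : Stmt_TAU := stmt_TAU
theorem S_COR : Stmt_COR := stmt_COR S_GBW S_ASPH0
theorem S_TRJ : Stmt_TRJ := stmt_TRJ
theorem S_ISQA : Stmt_ISQA := stmt_ISQA S_COR S_TRJ
theorem S_LNK : Stmt_LNK := stmt_LNK
theorem S_FLAT : Stmt_FLAT := stmt_FLAT S_NPC0 S_LE S_LNK
theorem S_ISOQ : Stmt_ISOQ :=
  stmt_ISOQ S_GBX S_TAU S_ISQA S_FLAT S_LE S_NPC0 Pool.HA.S_EXF Pool.HA.S_TTOK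
theorem S_UNI0 : Stmt_UNI0 :=
  stmt_UNI0 S_ASPH0 Pool.HA.S_FREV Pool.HA.S_FCAT Pool.HA.S_FBR Pool.HA.S_FCW
theorem S_INJ2 : Stmt_INJ2 :=
  stmt_INJ2 Pool.HA.S_EXF Pool.HA.S_CONN S_NPC0 S_UNI0 Pool.HA.S_FCAT Pool.HA.S_FROT Pool.HA.S_FBR
    Pool.HA.S_FREV Pool.HA.S_FTRI Pool.HA.S_TTOK Pool.HA.S_WCH
theorem S_X1 : Stmt_X1 :=
  stmt_X1 S_ISOQ S_INJ2 Pool.HA.S_BD Pool.HA.S_BD1 Pool.HA.S_CONN Pool.HA.S_WCH Pool.HA.S_ACT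
    Pool.HA.S_ZL Pool.HA.S_ZPER Pool.HA.S_ZG
theorem S_F3 : Stmt_F3 := stmt_F3 S_X1 Pool.HA.S_DROOT
theorem S_F4 : Stmt_F4 := stmt_F4 S_F3
theorem S_STR : Stmt_STR := stmt_STR S_LK2 Pool.HA.S_DSLG
theorem S_CYC : Stmt_CYC := stmt_CYC S_COR S_STR S_NPC0 Pool.HA.S_EXF Pool.HA.S_TTOK
theorem S_F6 : Stmt_F6 := stmt_F6 Pool.HA.S_AXIS S_F3 S_CYC Pool.HA.S_DROOT Pool.HA.S_TFE
theorem S_F5 : Stmt_F5 := stmt_F5 S_X1 Pool.HA.S_TFE S_F4 S_F6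
theorem S_F10 : Stmt_F10 := stmt_F10 Pool.HA.S_DPG
theorem S_CZ : Stmt_CZ := stmt_CZ S_F5 S_F4 S_F3 Pool.HA.S_DCEN Pool.HA.S_DCPC
theorem S_BIG : Stmt_BIG :=
  stmt_BIG S_COR S_STR S_NPC0 Pool.HA.S_EXF Pool.HA.S_TTOK Pool.HA.S_WCH
theorem S_F8 : Stmt_F8 := stmt_F8 S_F3 S_BIG
theorem S_INT : Stmt_INT := stmt_INT S_F5 S_F3 S_F8
theorem S_F7 : Stmt_F7 := stmt_F7 S_F10 S_CZ S_INT Pool.HA.S_DCEN
theorem S_TRI : Stmt_TRI := stmt_TRI S_F4 S_F5 S_F6 S_F7 S_F10 S_CZ Pool.HA.S_DCEN Pool.HA.S_DNCM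
theorem S_RFU : Stmt_RFU := stmt_RFU S_F3
theorem S_DCOM : Stmt_DCOM := stmt_DCOM Pool.HA.S_DTH Pool.HA.S_DINJ Pool.HA.S_DCPC Pool.HA.S_DNCM
theorem S_BAD1 : Stmt_BAD1 :=
  stmt_BAD1 S_F3 S_F4 S_F5 S_F6 S_F7 S_RFU S_DCOM Pool.HA.S_DCEN Pool.HA.S_DNCM
theorem S_DEC : Stmt_DEC := stmt_DEC S_GBX S_LE
theorem S_CYCD : Stmt_CYCD := stmt_CYCD
theorem S_ISOC : Stmt_ISOC := stmt_ISOC S_ISOQ S_CYCD S_INJ2 Pool.HA.S_BD Pool.HA.S_BD1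
theorem S_QUAD : Stmt_QUAD := stmt_QUAD Pool.HA.S_WCH
theorem S_SQS : Stmt_SQS := stmt_SQS S_INJ2 Pool.HA.S_WCH Pool.HA.S_ACT
theorem S_ZZS : Stmt_ZZS := stmt_ZZS
theorem S_OSUM : Stmt_OSUM :=
  stmt_OSUM S_ZZS Pool.HA.S_ZZ2 Pool.HA.S_ZPER Pool.HA.S_BD1 Pool.HA.S_ACT
theorem S_T5C : Stmt_T5C := stmt_T5C
theorem S_T5 : Stmt_T5 :=
  stmt_T5 S_DEC S_ISOC S_QUAD S_SQS S_OSUM S_ZZS S_T5C Pool.HA.S_CONN Pool.HA.S_BD Pool.HA.S_WCH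
    Pool.HA.S_EXF
theorem S_U0 : Stmt_U0 :=
  stmt_U0 S_OSUM S_ZZS S_QUAD S_ISOQ S_INJ2 Pool.HA.S_BD Pool.HA.S_WCH Pool.HA.S_CONN
    Pool.HA.S_ACT Pool.HA.S_EXF
theorem S_U1A : Stmt_U1A :=
  stmt_U1A S_GBW S_ASPH0 S_NPC0 Pool.HA.S_EXF Pool.HA.S_FBR Pool.HA.S_WCH Pool.HA.S_TTOK
theorem S_U1B : Stmt_U1B := stmt_U1B S_NPC0 S_LE
theorem S_U1C : Stmt_U1C := stmt_U1C S_U1A S_U1B
theorem S_ZG2 : Stmt_ZG2 := stmt_ZG2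
theorem S_U1 : Stmt_U1 := stmt_U1 S_U1C S_ZG2 Pool.HA.S_BD1 Pool.HA.S_CONN
theorem S_STC : Stmt_STC := stmt_STC S_U0 S_U1
theorem S_BADX : Stmt_BADX := stmt_BADX S_BAD1 S_T5 S_STC Pool.HA.S_DCEN Pool.HA.S_DPG
theorem S_RR : Stmt_RR := stmt_RR S_TRI S_BADX
theorem S_WBE : Stmt_WBE := stmt_WBE S_RR
theorem S_EL2 : Stmt_EL2 :=
  stmt_EL2 S_F3 S_F4 S_F5 S_F6 S_CZ Pool.HA.S_DCEN Pool.HA.S_DCPC Pool.HA.S_DNCM
theorem S_PRJ : Stmt_PRJ := stmt_PRJ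
theorem S_DWNC : Stmt_DWNC :=
  stmt_DWNC Pool.HA.S_DCPC Pool.HA.S_DPG S_PRJ Pool.HA.S_ORD Pool.HA.S_GREP
theorem S_NEL1 : Stmt_NEL1 := stmt_NEL1 S_F3 S_F4 S_F5 S_F7 S_RFU S_DWNC Pool.HA.S_DCEN
theorem S_CRY : Stmt_CRY := stmt_CRY Pool.HA.S_BFI Pool.HA.S_FAITH Pool.HA.S_INFO
theorem S_NEL2 : Stmt_NEL2 :=
  stmt_NEL2 S_NEL1 S_T5 S_STC S_PRJ Pool.HA.S_GREP Pool.HA.S_ORD S_CRY Pool.HA.S_DCEN
theorem S_PRODE : Stmt_PRODE := stmt_PRODE Pool.HA.S_DCPC Pool.HA.S_DCEN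
theorem S_ORDB : Stmt_ORDB := stmt_ORDB Pool.HA.S_BFI Pool.HA.S_INFO Pool.HA.S_FAITH
theorem S_GMI : Stmt_GMI :=
  stmt_GMI S_RR S_WBE S_EL2 S_NEL2 S_PRODE S_ORDB Pool.HA.S_ORD Pool.HA.S_TRC S_PRJ
theorem S_SG3 : Stmt_SG3 := stmt_SG3 Pool.HA.S_BFI Pool.HA.S_FINO Pool.HA.S_INFO
theorem S_SG4 : Stmt_SG4 := stmt_SG4 Pool.HA.S_BFI Pool.HA.S_FINO Pool.HA.S_INFO
theorem S_SGN : Stmt_SGN := stmt_SGN S_SG3 S_SG4 Pool.HA.S_SGA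
theorem S_FINP : Stmt_FINP := stmt_FINP Pool.HA.S_BFI Pool.HA.S_FAITH
theorem S_INF3 : Stmt_INF3 := stmt_INF3 Pool.HA.S_GREP Pool.HA.S_BFI Pool.HA.S_INFO
theorem S_NOFX : Stmt_NOFX := stmt_NOFX S_FINP S_INF3 Pool.HA.S_BFI Pool.HA.S_POS
theorem S_TRIP : Stmt_TRIP := stmt_TRIP S_NOFX Pool.HA.S_CONE Pool.HA.S_BFI
theorem S_FXP : Stmt_FXP := stmt_FXP Pool.HA.S_CONE
theorem S_GLOB : Stmt_GLOB := stmt_GLOB S_TRIP S_NOFX S_FXP Pool.HA.S_CONE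
theorem S_DOM : Stmt_DOM :=
  stmt_DOM S_GLOB Pool.HA.S_REGD Pool.HA.S_CONE Pool.HA.S_POS Pool.HA.S_BFI
theorem S_MONO : Stmt_MONO := stmt_MONO Pool.HA.S_BFI Pool.HA.S_POS
theorem S_EUC1 : Stmt_EUC1 :=
  stmt_EUC1 S_RR S_PRJ S_ORDB Pool.HA.S_GREP Pool.HA.S_BFI Pool.HA.S_GRAM
theorem S_EUC2 : Stmt_EUC2 := stmt_EUC2
theorem S_K1 : Stmt_K1 := stmt_K1 S_F7 S_F4 Pool.HA.S_DPG
theorem S_MAIN : Stmt_MAIN :=
  stmt_MAIN Pool.HA.S_GREP S_GMI S_SGN S_DOM S_MONO S_EUC1 S_EUC2 S_K1 Pool.HA.S_K2 Pool.HA.S_K3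
    Pool.HA.S_REL

end Pool.HE
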