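import Pool.Agent.Work.MP_7084a3_h91.Basic

set_option autoImplicit false

/-! # MP_7084a3_al, full answer: definitions (namespace `Pool.HE`)

Everything of `Pool.HA` (helper91: fillings, coset complex, chains, dihedral Artin groups, Coxeter
groups) is reused.  New: `ETyp` (all triples have sum of reciprocals `≤ 1`), loop systems (the conclusion
of the strengthened Gauss–Bonnet theorem), free pairs. -/

namespace Pool.HE

open Pool.HA

/-- `M` is infinity-free and two-dimensional -/
structure ETyp {S : Type} (M : CoxeterMatrix S) : Prop where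
  ne_zero : ∀ s t, M s t ≠ 0
  hyp : ∀ s t r, s ≠ t → t ≠ r → s ≠ r →
    (1 : ℚ) / (M s t : ℚ) + 1 / (M t r : ℚ) + 1 / (M s r : ℚ) ≤ 1

/-- a Euclidean triple -/
def ETri {S : Type} (M : CoxeterMatrix S) (E : Finset S) : Prop :=
  E.card = 3 ∧ ∀ s ∈ E, ∀ t ∈ E, ∀ r ∈ E, s ≠ t → t ≠ r → s ≠ r →
    (1 : ℚ) / (M s t : ℚ) + 1 / (M t r : ℚ) + 1 / (M s r : ℚ) = 1

/-- `M` is a Euclidean triangle -/
def IsEuc {S : Type} (M : CoxeterMatrix S) : Prop :=
  Nat.card S = 3 ∧ ∀ s t r : S, s ≠ t → t ≠ r → s ≠ r →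
    (1 : ℚ) / (M s t : ℚ) + 1 / (M t r : ℚ) + 1 / (M s r : ℚ) = 1

/-! ## Steps with labelled sides

`Stp` of `Pool.HA`: `a, b` and a kind `k`; `k = 0` is a step through a triangle, `k ≠ 0` a gap of kind
`k`.  `la k`, `lb k` are the labels of the two sides of a gap of kind `k` (at `a` and at `b`), `Y i` is the set
of vertices belonging to the label `i`. -/

section Sides
variable {V A : Type} [AddCommGroup A]

/-- composable, reduced; a triangle next to a gap side with label `i` has its third vertex outside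
`Y i` -/
def CmpY (la lb : ℕ → ℕ) (Y : ℕ → Set V) (s t : Stp V) : Prop :=
  s.b = t.a ∧ (s.k = 0 → t.k = 0 → s.a ≠ t.b) ∧ (s.k ≠ 0 → t.k = 0 → t.b ∉ Y (lb s.k)) ∧
    (s.k = 0 → t.k ≠ 0 → s.a ∉ Y (la t.k))

/-- left side (at `a`) of a step: the third vertex of the triangle or the label of the gap -/
def lsd (la : ℕ → ℕ) (s : Stp V) : V ⊕ ℕ := if s.k = 0 then .inl s.b else .inr (la s.k)

/-- right side (at `b`) of a step -/
def rsd (lb : ℕ → ℕ) (s : Stp V) : V ⊕ ℕ := if s.k = 0 then .inl s.a else .inr (lb s.k)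

/-- accounting data: `f v a b` is the value of the corner at `v` of the triangle `v, a, b` (in this
order), `g` the value of a gap, `J v b L R` the value of the junction at `v` over the link vertex `b` with
left side `L` and right side `R` -/
structure Acc (adj : V → V → Prop) (T : V → V → V → A) (B : Type) [AddCommGroup B] where
  f : V → V → V → B
  g : V → Stp V → B
  J : V → V → V ⊕ ℕ → V ⊕ ℕ → B
  κ : B
  ψ : A →+ B
  tri : ∀ u v c, adj u v → adj u c → adj c v → f u c v + f c v u + f v u c = κ - ψ (T u v c)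
  swap : ∀ v b L R, J v b L R + J b v R L = 0

/-- value of a step -/
def Acc.val {adj : V → V → Prop} {T : V → V → V → A} {B : Type} [AddCommGroup B]
    (F : Acc adj T B) (v : V) (s : Stp V) : B := if s.k = 0 then F.f v s.a s.b else F.g v s

/-- value of a junction -/
def Acc.jn {adj : V → V → Prop} {T : V → V → V → A} {B : Type} [AddCommGroup B]
    (F : Acc adj T B) (la lb : ℕ → ℕ) (v : V) (s t : Stp V) : B :=
  F.J v t.a (rsd lb s) (lsd la t)

/-- a finite family of loops (periodic sequences of steps at a vertex) -/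
structure LSys (V : Type) where
  ι : Type
  fin : Fintype ι
  v : ι → V
  K : ι → ℕ
  s : ι → ℕ → Stp V

attribute [instance] LSys.fin

/-- all loops are closed and reduced; `P` is a property of the gap steps -/
structure LSOK (adj : V → V → Prop) (la lb : ℕ → ℕ) (Y : ℕ → Set V) (P : V → Stp V → Prop)
    (X : LSys V) : Prop where
  pos : ∀ i, 0 < X.K i
  per : ∀ i j, X.s i (j + X.K i) = X.s i j
  stp : ∀ i j, TStp adj (X.v i) (X.s i j) ∨ ((X.s i j).k ≠ 0 ∧ P (X.v i) (X.s i j))
  cmp : ∀ i j, CmpY la lb Y (X.s i j) (X.s i (j + 1))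

/-- total value of a loop system -/
def LSys.tot {adj : V → V → Prop} {T : V → V → V → A} {B : Type} [AddCommGroup B]
    (X : LSys V) (la lb : ℕ → ℕ) (F : Acc adj T B) : B :=
  ∑ i, ∑ j ∈ Finset.range (X.K i),
    (F.val (X.v i) (X.s i j) + F.jn la lb (X.v i) (X.s i j) (X.s i (j + 1)))

/-- the gap steps along a list of positions `(vertex, kind)`; `p` is the vertex before the list, `f` the
vertex after it -/
def gapsGo (f : V) : V → List (V × ℕ) → List (V × Stp V)
  | _, [] => []
  | p, [q] => [(q.1, ⟨f, p, q.2⟩)]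
  | p, q :: r :: l => (q.1, ⟨r.1, p, q.2⟩) :: gapsGo f q.1 (r :: l)

/-- the gap steps of a closed walk with kinds: at the position `q` the step `⟨next, previous, kind⟩` -/
def gaps (P : List (V × ℕ)) : List (V × Stp V) :=
  match P.head?, P.getLast? with
  | some q, some r => gapsGo q.1 r.1 P
  | _, _ => []

/-- the weight of the loop `i`: the triangle steps count `ang`, the gap steps `W k` -/
noncomputable def LSys.wt (X : LSys V) (ang : V → V → V → ℝ) (W : ℕ → ℝ) (i : X.ι) : ℝ :=
  ∑ j ∈ Finset.range (X.K i),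
    if (X.s i j).k = 0 then ang (X.v i) (X.s i j).a (X.s i j).b else W (X.s i j).k

/-- a loop without gaps of weight two -/
def LSys.Flat (X : LSys V) (ang : V → V → V → ℝ) (i : X.ι) : Prop :=
  (∀ j, (X.s i j).k = 0) ∧ X.wt ang (fun _ => 2) i = 2

/-- nonpositive curvature, angles of a triangle with sum exactly one -/
structure NP0 (adj : V → V → Prop) (ang : V → V → V → ℝ) : Prop where
  symm : ∀ u v, adj u v → adj v u
  irr : ∀ u, ¬ adj u u
  comm : ∀ u v w, ang u v w = ang u w v
  pos : ∀ u v w, adj u v → adj v w → adj u w → 0 < ang u v w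
  sum : ∀ u v w, adj u v → adj v w → adj u w → ang u v w + ang v w u + ang w u v = 1
  loop : ∀ v (ω : List (Stp V)), ω ≠ [] → LPath adj v ω →
    (∀ s ∈ ω.getLast?, ∀ t ∈ ω.head?, Cmp s t) → 2 ≤ wts ang v ω

end Sides

/-! ## The complex -/

section Cx
variable {S : Type}

/-- a closed loop of triangle steps at `v`, as a periodic sequence -/
structure TLoop {V : Type} (adj : V → V → Prop) (v : V) (K : ℕ) (s : ℕ → Stp V) : Prop where
  pos : 0 < K
  per : ∀ j, s (j + K) = s j
  stp : ∀ j, TStp adj v (s j)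
  cmp : ∀ j, Cmp (s j) (s (j + 1))

/-- number of steps of a flat loop -/
def fl {G : Type} [Group G] {g : S → G} (M : CoxeterMatrix S) (v : Vtx g) : ℕ :=
  if v.ty = 0 then 6 else if v.ty = 1 then 4 else 4 * lb M v.J

/-- a free pair: commuting, and no nontrivial combination fixes a vertex -/
def FP (M : CoxeterMatrix S) (h x : Art M) : Prop :=
  Commute h x ∧ ∀ a b : ℤ, (a ≠ 0 ∨ b ≠ 0) → ∀ v : Vtx (gen M), (h ^ a * x ^ b) • v ≠ v

/-- sum of `D` over the orbit of `t` under two commuting permutations -/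
noncomputable def osum {X : Type} (σ τ : Equiv.Perm X) (t : X) : (X →₀ ℤ) →+ ℤ := by
  classical
  exact Finsupp.liftAddHom
    (fun x => if ∃ a b : ℤ, (σ ^ a * τ ^ b) t = x then AddMonoidHom.id ℤ else 0)

/-- permutations of the triples of vertices -/
def PT {G : Type} [Group G] (g : S → G) : G →* Equiv.Perm (Vtx g × Vtx g × Vtx g) :=
  MulAction.toPermHom G (Vtx g × Vtx g × Vtx g)

/-- planes: cosets of the subgroups generated by `E ⊆ S` (used for `E` a Euclidean triple) -/
def Pl (M : CoxeterMatrix S) : Type := Σ E : Finset S, Art M ⧸ par (gen M) E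

/-- the vertex `v` is in the subcomplex `κ` -/
def OnP (M : CoxeterMatrix S) (κ : Pl M) (v : Vtx (gen M)) : Prop :=
  v.J ⊆ κ.1 ∧ ∃ x, v.mem x ∧ (QuotientGroup.mk x : Art M ⧸ par (gen M) κ.1) = κ.2

/-- the type 0 vertex `x` -/
def o0 (M : CoxeterMatrix S) (x : Art M) : Vtx (gen M) := Vtx.mk (gen M) ∅ (by simp) x

/-- no nonzero power fixes a vertex -/
def NoFix (M : CoxeterMatrix S) (c : Art M) : Prop :=
  ∀ k : ℤ, k ≠ 0 → ∀ v : Vtx (gen M), (c ^ k) • v ≠ v

/-- the fundamental element `z = (s t) ^ M s t` of the stabiliser of `A_{st}` -/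
def zz (M : CoxeterMatrix S) (s t : S) : Art M := (gen M s * gen M t) ^ M s t

/-- the canonical homomorphism to the Coxeter group -/
def IsPrj (M : CoxeterMatrix S) (π : Art M →* M.Group) : Prop := ∀ s, π (gen M s) = M.simple s

end Cx

end Pool.HE
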