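import Pool.Agent.Work.MP_7084a3_full.InterfaceE

set_option autoImplicit false

/-! # Blocks C: isomorphisms, Coxeter groups, Euclidean triangles

`φ : Art M ≃* Art M'`, both `ETyp`.  `NoFix M' c`: no nonzero power of `c` fixes a vertex.  `zz M s t = (st)^m`.
`u = A_{st}` = `Vtx.mk (gen M) {s,t} _ 1`, its stabiliser is `pr (gen M) s t` (`Vtx.smul_eq_iff`, `par_pair`).
F3, F4, F5, F6, F7, F10, CZ, INT, K1 are the copies in `InterfaceH.lean` (proved from X1, BIG, CYC). -/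

namespace Pool.HE

open Pool.HA

/-! ## Dihedral facts -/

/-- DCOM (uses DTH, DINJ, DCPC, DNCM): commuting reflections of a dihedral Artin group with label `≥ 3` are equal. `x ∈ pr s t`,
`A = Φ(gen a)`, `B = Φ(x gen b x⁻¹)`: both satisfy `X² = (1-q) X + q`, have trace `1 - q`, determinant `-q`, and are not scalar;
`B` commutes with `A`, so `B = α + β A` (the commutant of a nonscalar 2 by 2 matrix), and comparing coefficients of
`B² = (1-q) B + q` gives `(α,β) = (0,1)` or `B = (1-q) - A = - q A⁻¹`. In the first case `Φ (gen a)⁻¹ (x gen b x⁻¹) = 1` is scalar, so `θ` of it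
is `1`, its exponent sum is `0`: DINJ. In the second case `p = gen a * (x gen b x⁻¹)` has `Φ p = -q` scalar, so `θ p = 1`; for
`h ∈ pr s t` the commutator `p h p⁻¹ h⁻¹` has `θ = 1` and exponent sum `0`, so it is `1`: `p` is central in `pr s t`. DCPC (`K = 1`): `p` is conjugate
in `pr s t` to `(st)^l` (`2 = 2l`, `l = 1`, so `p = st` (central), and `st` commutes with `s`, against DNCM) or `Δ^l`
(`2 = m l`, impossible). -/
def Stmt_DCOM : Prop :=
  ∀ (S : Type) (M : CoxeterMatrix S), (∀ s t, M s t ≠ 0) → ∀ s t : S, s ≠ t → 3 ≤ M s t →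
    ∀ x ∈ pr (gen M) s t, ∀ a b : S, (a = s ∨ a = t) → (b = s ∨ b = t) →
      Commute (gen M a) (x * gen M b * x⁻¹) → gen M a = x * gen M b * x⁻¹

/-- PRJ: the canonical homomorphism to the Coxeter group exists and is onto (it is constructed in `WB.lean` of helper91). -/
def Stmt_PRJ : Prop :=
  ∀ (S : Type) (M : CoxeterMatrix S), (∀ s t, M s t ≠ 0) →
    ∃ π : Art M →* M.Group, IsPrj M π ∧ Function.Surjective π

/-- DWNC (uses DCPC, DPG, PRJ, ORD, GREP): `w = s t⁻¹`, `m ≥ 3`. (1) No power `w^α`, `α ≠ 0`, is central in `pr s t`: DCPC with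
`K = |α|`: `w` is conjugate to `(st)^l` or `Δ^l`; exponent sum `0`, so `l = 0`, `w = 1`, `gen s = gen t`, against DPG (`gen t ∈ par {s}`).
(2) `w` commutes with no `r = y a y⁻¹`, `y ∈ pr s t`, `a ∈ {gen s, gen t}`: in `M.Group` every element of the subgroup generated by `s, t`
conjugates `st` to `(st)^{±1}`, and `s`, `t`, so also the image of `r`, conjugate it to `(st)⁻¹`; the image of `w` is `st`. So
`(st)² = 1`, but the order of `st` is `M s t ≥ 3`. -/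
def Stmt_DWNC : Prop :=
  ∀ (S : Type) [Finite S] (M : CoxeterMatrix S), (∀ s t, M s t ≠ 0) → ∀ s t : S, s ≠ t →
    3 ≤ M s t →
    (∀ α : ℤ, (∀ h ∈ pr (gen M) s t, Commute ((gen M s * (gen M t)⁻¹) ^ α) h) → α = 0) ∧
    (∀ y ∈ pr (gen M) s t, ∀ a : S, (a = s ∨ a = t) →
      ¬ Commute (gen M s * (gen M t)⁻¹) (y * gen M a * y⁻¹))

/-- RFU (uses F3): a reflection `r` fixing `A_{st}` is conjugate in `pr s t` to `gen s` or `gen t`. `r = x g x⁻¹` fixes the type 1 vertex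
`x⟨g⟩`; F3: a walk in the fixed set of `r` from `A_{st}` to it; its second vertex `w` is fixed by `r ≠ 1`, so it has not type 0,
it is adjacent to a type 2 vertex, so it has type 1: `w = y⟨a⟩`, `a ∈ {s,t}`, `y ∈ A_{st}`, i.e. `y ∈ pr s t`; `y⁻¹ r y` is a power of
`gen a` of exponent sum `1`. -/
def Stmt_RFU : Prop :=
  ∀ (S : Type) [Finite S] [DecidableEq S] (M : CoxeterMatrix S), ETyp M → ∀ (s t : S), s ≠ t →
    ∀ (r : Art M) (u : Vtx (gen M)), Rfl (gen M) r → u.J = {s, t} → u.mem 1 → r • u = u →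
    ∃ y ∈ pr (gen M) s t, ∃ a, (a = s ∨ a = t) ∧ r = y * gen M a * y⁻¹

/-! ## Images of reflections -/

/-- TRI (uses F3, F4, F5, F6, F7, F10, CZ, DCEN, DNCM): `φ(r)` is a reflection or its inverse, or no nonzero power of it fixes a
vertex. Suppose `φ(r)^k`, `k ≠ 0`, fixes `v'`; `φ(r)^k ≠ 1` (exponent sum of `r^k`). F5 for `φ(r)^k`.
(R) `φ(r)^k = r'^i`, `i ≠ 0`: `φ(r)` commutes with `r'^i`, so with `r'` (F4), and F6: `φ(r) = r'^l`, `l ≠ 0`. `φ⁻¹(r')` commutes with every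
`y` commuting with `r`: `φ(y)` commutes with `φ(r) = r'^l`, so with `r'` (F4). F7: `φ⁻¹(r') = r^j`; `r' = r'^{lj}`, so `l j = 1` (infinite
order), `l = ±1`. (D) `v'` is the only vertex fixed by `φ(r)^k`. For `y` commuting with `r`, `φ(y)` commutes with `φ(r)^k`, so it fixes
`v'`. `v'` has not type 0 (`φ(r)^k ≠ 1`) nor type 1 (then `φ(r)^k` is a power of a reflection: case R). Type 2, labels
`{s',t'}`, `x' ∈ v'`, `m' = M' s' t'`. `m' = 2`: the stabiliser of `v'` is abelian; let `u₁ ≠ u₂` be as in F10 and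
`z_i = x_i (s_i t_i)^{m_i} x_i⁻¹` the central elements of their stabilisers (DCEN): they commute with `r`, so `φ(z₁), φ(z₂)`
commute, `z₁` and `z₂` commute; CZ (2): `z₁ u₂ = u₂`, CZ (1): `u₂ = u₁`, contradiction. `m' ≥ 3`: `ζ = x' (s't')^{m'} x'⁻¹` commutes with the
stabiliser of `v'`, so `φ⁻¹(ζ)` commutes with `C(r)`; F7: `φ⁻¹(ζ) = r^j`, `j ≠ 0`. `y = φ⁻¹(x' s' t' x'⁻¹)`: `y^{m'} = r^j`, so `y` commutes with
`r^j`, with `r` (F4), and `y = r^i` (F6). `b = φ⁻¹(x' s' x'⁻¹)` commutes with `φ⁻¹(ζ) = r^j`, so with `r`, so with `y`: `s'` commutes with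
`s't'`, so with `t'`, against DNCM. -/
def Stmt_TRI : Prop :=
  ∀ (S S' : Type) [Finite S] [Finite S'] (M : CoxeterMatrix S) (M' : CoxeterMatrix S'),
    ETyp M → ETyp M' → 3 ≤ Nat.card S → ∀ (φ : Art M ≃* Art M') (r : Art M), Rfl (gen M) r →
      (∃ r', Rfl (gen M') r' ∧ (φ r = r' ∨ φ r = r'⁻¹)) ∨ NoFix M' (φ r)

/-- BAD1 (uses F3, F4, F5, F6, F7, RFU, DCOM, DCEN, DNCM): if no nonzero power of `φ(gen s)` fixes a vertex and `M s t ≥ 3` then
`φ(gen s)` and `φ(zz s t)` are a free pair. `a = gen s`, `z = zz s t`, `c = φ(z)`, `u = A_{st}`. Suppose `e' = φ(a)^α c^β` fixes `v'`,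
`(α,β) ≠ 0`; `β ≠ 0` by hypothesis. `e = a^α z^β` fixes `u`. (1) `e ≠ 1`, more generally `z^β ≠ a^i` for all `i`: `a^i` would commute with
`gen t`, so `i = 0` (DNCM), and `z^β = 1` contradicts the exponent sum `2 m β`. (2) `e` is not a power of a reflection: `e = r₁^j`,
`j ≠ 0`: `r₁` fixes `u` (F3), commutes with `a` (F4, `e` commutes with `a`); RFU and DCOM: `r₁ = a`; so `z^β = a^{j-α}`, against (1). (3) F5:
`u` is the only vertex fixed by a nonzero power of `e`; so everything commuting with `e` fixes `u` and commutes with `z`.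
(4) F5 for `e' ≠ 1`. Case `e' = r'^i`, `i ≠ 0`: `y'` commuting with `r'` commutes with `e'`, so `φ⁻¹(y')` commutes with `e`, with `z` (3), and
`y'` commutes with `c`. F7: `c = r'^l`, `l ≠ 0`. `y = gen s gen t`: `φ(y)^m = c = r'^l`; `φ(y)` commutes with `r'` (F4), `φ(y) = r'^i'`
(F6); `φ(a)` commutes with `c = r'^l`, so with `r'` (F4), so with `φ(y)`: `a` commutes with `gen t`, against DNCM. Case `v'` is the only
vertex fixed by `e'`: `φ(a)` commutes with `e'`, so it fixes `v'`, against the hypothesis. -/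
def Stmt_BAD1 : Prop :=
  ∀ (S S' : Type) [Finite S] [Finite S'] (M : CoxeterMatrix S) (M' : CoxeterMatrix S'),
    ETyp M → ETyp M' → 3 ≤ Nat.card S' → ∀ (φ : Art M ≃* Art M') (s t : S), s ≠ t →
      3 ≤ M s t → NoFix M' (φ (gen M s)) → FP M' (φ (gen M s)) (φ (zz M s t))

/-- BADX (uses BAD1, T5, STC, DCEN, DPG): if no nonzero power of `φ(gen s)` fixes a vertex then `M'` is a Euclidean triangle. There
is `t₀ ≠ s` with `M s t₀ ≥ 3` (`ETyp.match`). BAD1, T5: `E, y, k` with `φ(gen s)^k, φ(zz s t₀)^k ∈ y P_E y⁻¹`. STC for `h = φ(gen s)`: every `g`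
commuting with `φ(gen s)` is in `y P_E y⁻¹` (*). Let `t ≠ s`. If `M s t = 2`, `gen t` commutes with `gen s`, so `φ(gen t) ∈ y P_E y⁻¹`. If
`M s t ≥ 3`: `φ(zz s t) ∈ y P_E y⁻¹` by (*) (DCEN); `(φ(zz s t), φ(gen s))` is a free pair (BAD1); STC with `h = φ(zz s t)`, `k = 1`:
`φ(gen t) ∈ y P_E y⁻¹` (DCEN). So `φ` maps all generators into `y P_E y⁻¹`; `φ` is onto, so `P_E` is the whole group, `E` = all of
`S'` (DPG). -/
def Stmt_BADX : Prop :=
  ∀ (S S' : Type) [Finite S] [Finite S'] (M : CoxeterMatrix S) (M' : CoxeterMatrix S'),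
    ETyp M → ETyp M' → 3 ≤ Nat.card S → 3 ≤ Nat.card S' → ∀ (φ : Art M ≃* Art M') (s : S),
      NoFix M' (φ (gen M s)) → IsEuc M'

/-- RR (uses TRI, BADX): if `M'` is not a Euclidean triangle then `φ` maps reflections to reflections or their inverses (reduce to
`r = gen s` by conjugation). -/
def Stmt_RR : Prop :=
  ∀ (S S' : Type) [Finite S] [Finite S'] (M : CoxeterMatrix S) (M' : CoxeterMatrix S'),
    ETyp M → ETyp M' → 3 ≤ Nat.card S → 3 ≤ Nat.card S' → ¬ IsEuc M' →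
    ∀ (φ : Art M ≃* Art M') (r : Art M), Rfl (gen M) r →
      ∃ r', Rfl (gen M') r' ∧ (φ r = r' ∨ φ r = r'⁻¹)

/-- WBE (uses RR, PRJ): the induced isomorphism of Coxeter groups, compatible with the projections. (As `WB` of helper91.) -/
def Stmt_WBE : Prop :=
  ∀ (S S' : Type) [Finite S] [Finite S'] (M : CoxeterMatrix S) (M' : CoxeterMatrix S'),
    ETyp M → ETyp M' → 3 ≤ Nat.card S → 3 ≤ Nat.card S' → ¬ IsEuc M → ¬ IsEuc M' →
    ∀ φ : Art M ≃* Art M',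
    ∃ ψ : M.Group ≃* M'.Group, (∀ s, ∃ w s', ψ (M.simple s) = w * M'.simple s' * w⁻¹) ∧
      (∀ s', ∃ w s, ψ.symm (M'.simple s') = w * M.simple s * w⁻¹) ∧
      ∀ (π : Art M →* M.Group) (π' : Art M' →* M'.Group), IsPrj M π → IsPrj M' π' →
        ∀ x, ψ (π x) = π' (φ x)

/-! ## Images of the dihedral stabilisers -/

/-- EL2 (uses F3, F4, F5, F6, CZ, DCEN, DCPC, DNCM): if a nonzero power of `c = φ(zz s t)` fixes a vertex then the stabiliser of
`u = A_{st}` corresponds to the stabiliser of a type 2 vertex. `c^k v = v`, `k ≠ 0`, `c^k ≠ 1` (exponent sum). F5 for `c^k`. (A)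
`c^k = r'^i`, `i ≠ 0`: `y = gen s gen t`, `φ(y)` commutes with `c^k = r'^i`, so with `r'`, `φ(y)^{m k} = r'^i`, F6: `φ(y) = r'^j`; `φ(gen s)` commutes
with `c^k`, so with `r'`, so with `φ(y)`: `gen s` commutes with `gen t`, against DNCM. (B) `v` is the only vertex fixed by `c^k`; for
`h ∈ pr s t`, `φ(h)` commutes with `c^k`, so fixes `v`. `v` has type 2 and label `≥ 3` (type 0: `c^k = 1`; type 1 or label 2: the
stabiliser is abelian, against DNCM). `v.J = {s',t'}`, `x' ∈ v`, `z' = x' (s't')^{m'} x'⁻¹` commutes with the stabiliser of `v`. `z'` commutes with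
`c`, so `e = φ⁻¹(z')` commutes with `z`, so fixes `u` (CZ (2)); `e ≠ 1`; `e` commutes with `pr s t` (`φ(h)` commutes with `z'`). `e` is not a
power of a reflection: `e = r^i`, `i ≠ 0`: `r` commutes with `pr s t` (F4), fixes `u` (F3), so `r ∈ pr s t`; DCPC (`K = 1`) and
exponent sums `1 = 2l`, `1 = m l`: impossible. F5: `u` is the only vertex fixed by `e`. If `φ(h) v = v` then `φ(h)` commutes with
`z'`, `h` commutes with `e`, `h u = u`. -/
def Stmt_EL2 : Prop :=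
  ∀ (S S' : Type) [Finite S] [Finite S'] [DecidableEq S] (M : CoxeterMatrix S)
    (M' : CoxeterMatrix S'), ETyp M → ETyp M' → ∀ (φ : Art M ≃* Art M') (s t : S)
    (u : Vtx (gen M)), s ≠ t → 3 ≤ M s t → u.J = {s, t} → u.mem 1 →
    ¬ NoFix M' (φ (zz M s t)) →
    ∃ u' : Vtx (gen M'), u'.ty = 2 ∧ 3 ≤ lb M' u'.J ∧ ∀ h : Art M, h • u = u ↔ φ h • u' = u'

/-- NEL1 (uses F3, F4, F5, F7, RFU, DWNC, DCEN): if no nonzero power of `c = φ(zz s t)` fixes a vertex then `φ(w)`, `w = s t⁻¹`, and `c` are a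
free pair. Suppose `e' = φ(w)^α c^β` fixes `v'`; `α ≠ 0`. `e = w^α z^β` fixes `u = A_{st}`. `e ≠ 1` (`w^α = z^{-β}` would be central: DWNC (1)).
`e` is not a power of a reflection: `e = r₁^j`, `j ≠ 0`: `r₁` fixes `u` (F3), commutes with `w` (F4): RFU, DWNC (2). F5: everything
commuting with `e` fixes `u`, so commutes with `z`. F5 for `e' ≠ 1`: `e' = r'^i`: `c` commutes with everything commuting with `r'`, so
`c = r'^l` (F7) fixes a vertex, contradiction; otherwise `v'` is the only vertex fixed by `e'`, `c` commutes with `e'`, so `c v' = v'`,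
contradiction. -/
def Stmt_NEL1 : Prop :=
  ∀ (S S' : Type) [Finite S] [Finite S'] (M : CoxeterMatrix S) (M' : CoxeterMatrix S'),
    ETyp M → ETyp M' → 3 ≤ Nat.card S' → ∀ (φ : Art M ≃* Art M') (s t : S), s ≠ t →
      3 ≤ M s t → NoFix M' (φ (zz M s t)) →
      FP M' (φ (gen M s * (gen M t)⁻¹)) (φ (zz M s t))

/-- CRY (uses BFI, FAITH, INFO): in the affine reflection subgroup of a Euclidean triple products of two reflections of finite order
have order dividing 4 or 6. `ρ` the geometric representation on `V = ℝ^S`, `E = {a,b,c}` Euclidean: the labels are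
`(3,3,3)`, `(2,4,4)`, `(2,3,6)` up to order. There are `d : S → ℝ`, positive, such that for `i, j ∈ E`, `i ≠ j`,
`2 cos(π/M i j) d_j / d_i` is an integer (`d = 1` for `(3,3,3)`; labels `M a b = 2`, `M b c = M a c = 4`: `d_c = √2`, `d_a = d_b = 1`;
`M a b = 2`, `M b c = 3`, `M a c = 6`: `d_a = 1`, `d_b = d_c = √3`). So `ρ(w)`, `w ∈ closure (simple '' E)`, maps `d_j e_j`,
`j ∈ E`, to integer combinations of the `d_i e_i`, `i ∈ E`, and `e_x`, `x ∉ E`, to `e_x +` (combination of `e_i`, `i ∈ E`) (check for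
`simple i`; the property is multiplicative, inverses: `simple i` are involutions). So the trace of `ρ(w)` is an integer, and so is
the trace of the conjugate `ρ(r₁ r₂)`, which is `card S - 4 + 4 b²`, `b = bf v₁ v₂` (see TRC). So `4 b²` is an integer. If
`v₁ = ± v₂` then `r₁ = r₂`. Otherwise `|b| < 1` (INFO), `4b² ∈ {0,1,2,3}`. `T = ρ(r₁ r₂)` is the identity on the orthogonal
complement of `P = span(v₁,v₂)` and satisfies `T² = (4b²-2) T - 1` on `P`: `T² = 1`, `T³ = 1`, `T⁴ = 1`, `T⁶ = 1` respectively.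
FAITH. -/
def Stmt_CRY : Prop :=
  ∀ (S : Type) [Fintype S] [DecidableEq S] (M : CoxeterMatrix S)
    (ρ : M.Group →* Module.End ℝ (S → ℝ)), (∀ s t, M s t ≠ 0) → IsRep M ρ →
    ∀ E : Finset S, ETri M E → ∀ (g r₁ r₂ : M.Group) (v₁ v₂ : S → ℝ), IsRf M ρ r₁ v₁ →
      IsRf M ρ r₂ v₂ → g⁻¹ * (r₁ * r₂) * g ∈ Subgroup.closure (M.simple '' (E : Set S)) →
      (∃ k : ℕ, 0 < k ∧ (r₁ * r₂) ^ k = 1) → (r₁ * r₂) ^ 4 = 1 ∨ (r₁ * r₂) ^ 6 = 1

/-- NEL2 (uses NEL1, T5, STC, PRJ, GREP, ORD, CRY, BFI): if no nonzero power of `φ(zz s t)` fixes a vertex then `M s t ∈ {3,4,6}`. NEL1,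
T5: `E, y, k`; STC with `h = φ(zz s t)`, `x = φ(s t⁻¹)` (symmetry of free pairs): `φ(gen s), φ(gen t) ∈ y P_E y⁻¹` (they commute with
`φ(zz s t)`). In `M'.Group`: `ψ(s) ψ(t) = π'(φ(gen s gen t))` is in `g closure(simple '' E) g⁻¹`, `g = π'(y)`. `ψ(s), ψ(t)` are
reflections. CRY: `(ψ(s)ψ(t))⁴ = 1` or `(…)⁶ = 1`, and the order of `st` is `M s t ≥ 3`. -/
def Stmt_NEL2 : Prop :=
  ∀ (S S' : Type) [Finite S] [Finite S'] (M : CoxeterMatrix S) (M' : CoxeterMatrix S'),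
    ETyp M → ETyp M' → 3 ≤ Nat.card S' → ∀ (φ : Art M ≃* Art M') (ψ : M.Group ≃* M'.Group),
    (∀ s, ∃ w s', ψ (M.simple s) = w * M'.simple s' * w⁻¹) →
    (∀ (π : Art M →* M.Group) (π' : Art M' →* M'.Group), IsPrj M π → IsPrj M' π' →
      ∀ x, ψ (π x) = π' (φ x)) →
    ∀ s t, s ≠ t → 3 ≤ M s t → NoFix M' (φ (zz M s t)) → M s t = 3 ∨ M s t = 4 ∨ M s t = 6

/-- PRODE (uses DCPC, DCEN): as `PROD` of helper91: `u = A_{st}`, its stabiliser corresponds to the stabiliser of `u' = y A_{s't'}`, label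
`m' ≥ 3`; `Y = y⁻¹ φ(st) y ∈ pr s' t'`, `Y^{M s t}` commutes with `pr s' t'` (as `(st)^{M s t}` commutes with the stabiliser of `u`). DCPC: `Y` is
conjugate to `(s't')^l` or `Δ'^l`; the exponent sum of `φ(st)` is `0` or `±2`, so `2l ∈ {0,±2}` or `m' l ∈ {0,±2}`; `l = 0` is
impossible (`st ≠ 1`), so `Y` is conjugate to `(s't')^{±1}`. -/
def Stmt_PRODE : Prop :=
  ∀ (S S' : Type) [Finite S] [Finite S'] [DecidableEq S] (M : CoxeterMatrix S)
    (M' : CoxeterMatrix S'), ETyp M → ETyp M' → ∀ (φ : Art M ≃* Art M') (s t : S)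
    (u : Vtx (gen M)) (u' : Vtx (gen M')), s ≠ t → 3 ≤ M s t → u.J = {s, t} → u.mem 1 →
    u'.ty = 2 → 3 ≤ lb M' u'.J → (∀ h : Art M, h • u = u ↔ φ h • u' = u') →
    (∃ r', Rfl (gen M') r' ∧ (φ (gen M s) = r' ∨ φ (gen M s) = r'⁻¹)) →
    (∃ r', Rfl (gen M') r' ∧ (φ (gen M t) = r' ∨ φ (gen M t) = r'⁻¹)) →
    ∃ (s' t' : S') (w : Art M'), s' ≠ t' ∧
      (φ (gen M s * gen M t) = w * (gen M' s' * gen M' t') * w⁻¹ ∨
        φ (gen M s * gen M t) = w * (gen M' s' * gen M' t')⁻¹ * w⁻¹)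

/-- ORDB (uses BFI, INFO): the form of two roots whose reflections have a product of order `m ∈ {2,3,4,6}` is `± cos(π/m)`. `m ≥ 2`, so
`v₁ ≠ ± v₂` (otherwise `r₁ = r₂`), and `|b| < 1` by INFO. `T = ρ(r₁r₂)` on `P = span(v₁,v₂)` (independent): `T² = τT - 1`, `τ = 4b² - 2`; `T` is
the identity on the complement, so `T` has order exactly `m` on `P` (FAITH is not needed: if `T^k = 1` on `P` then `ρ((r₁r₂)^k) = 1`;
use FAITH to get `(r₁r₂)^k = 1`). `T` is scalar only if `b = 0` (`T = -1`). `m = 2`: `τ T = 2`, `T` scalar, `b = 0`. For `m > 2`: `T` not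
scalar. `m = 3`: `T³ = (τ²-1) T - τ`, so `τ = -1`, `|b| = 1/2`. `m = 4`: `T⁴ = (τ³ - 2τ) T + 1 - τ²`: `τ² ∈ {0}`, `b² = 1/2`. `m = 6`: `T³` has
order 2 and commutes…: `T⁶ = 1`, `T³ ≠ 1`, `T² ≠ 1`: `T³ = (τ²-1)T - τ`, `(T³)² = 1`: with `A = τ² - 1`:
`A² T² - 2Aτ T + τ² = 1`, i.e. `(A²τ - 2Aτ) T + τ² - A² = 1`, so `Aτ(A - 2) = 0` and `τ² - A² = 1`: `A = 0`: `τ = ±1`; `τ = 0`:
`A = -1`, `-1 = 1` no; `A = 2`: `τ² = 3`, `3 - 4 = 1` no. `τ = -1` gives `T³ = 1`, no. So `τ = 1`, `b² = 3/4`. -/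
def Stmt_ORDB : Prop :=
  ∀ (S : Type) [Fintype S] [DecidableEq S] (M : CoxeterMatrix S)
    (ρ : M.Group →* Module.End ℝ (S → ℝ)), (∀ s t, M s t ≠ 0) → IsRep M ρ →
    ∀ (r₁ r₂ : M.Group) (v₁ v₂ : S → ℝ), IsRf M ρ r₁ v₁ → IsRf M ρ r₂ v₂ →
      ∀ m : ℕ, (m = 2 ∨ m = 3 ∨ m = 4 ∨ m = 6) → orderOf (r₁ * r₂) = m →
        |bf M v₁ v₂| = Real.cos (Real.pi / m)

/-- GMI (uses RR, WBE, EL2, NEL2, PRODE, ORDB, ORD, TRC, PRJ, BFI): an isomorphism of the Artin groups gives a situation `WC`. `ψ` from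
WBE, `β s` a root of `ψ(simple s)`. `s ≠ t`, `m = M s t`; `ψ(s)ψ(t)` has order `m` (ORD). `m = 2`: ORDB. `m ≥ 3`: if `NoFix (φ (zz s t))`
then `m ∈ {3,4,6}` (NEL2) and ORDB. Otherwise EL2, PRODE (with RR): `φ(gen s gen t) = w (s't')^{±1} w⁻¹`, so `ψ(st)` is conjugate to
`s't'` (`(s't')⁻¹ = t's'` is conjugate to `s't'`), `M' s' t' = m` by orders, TRC: `bf² = cos²(π/m)`, and `cos(π/m) ≥ 0`. -/
def Stmt_GMI : Prop :=
  ∀ (S S' : Type) [Fintype S] [DecidableEq S] [Fintype S'] [DecidableEq S']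
    (M : CoxeterMatrix S) (M' : CoxeterMatrix S') (ρ : M.Group →* Module.End ℝ (S → ℝ))
    (ρ' : M'.Group →* Module.End ℝ (S' → ℝ)), ETyp M → ETyp M' → IsRep M ρ → IsRep M' ρ' →
    3 ≤ Nat.card S → 3 ≤ Nat.card S' → ¬ IsEuc M → ¬ IsEuc M' → Nonempty (Art M ≃* Art M') →
    ∃ ψ β, WC M M' ρ ρ' ψ β

/-! ## Coxeter groups -/

/-- FINP (uses BFI, FAITH): if a finite set `Ψ` of roots is stable under `r₁, r₂` and contains `v₁` then `r₁ r₂` has finite
order. `T = ρ(r₁r₂)` maps `Ψ` to itself, so `T^k v₁ = v₁` for some `k > 0`. Then `x = (r₁r₂)^k` fixes `v₁`, so `x r₁ x⁻¹ = r₁` (both are the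
reflection in `v₁`: `ρ(x r₁ x⁻¹) = ρ(r₁)`, FAITH). But `r₁ (r₁r₂) r₁ = (r₁r₂)⁻¹`, so `r₁ x r₁ = x⁻¹`: `x² = 1`. -/
def Stmt_FINP : Prop :=
  ∀ (S : Type) [Fintype S] [DecidableEq S] (M : CoxeterMatrix S)
    (ρ : M.Group →* Module.End ℝ (S → ℝ)), (∀ s t, M s t ≠ 0) → IsRep M ρ →
    ∀ (r₁ r₂ : M.Group) (v₁ v₂ : S → ℝ) (Ψ : Set (S → ℝ)), IsRf M ρ r₁ v₁ → IsRf M ρ r₂ v₂ →
      Ψ.Finite → v₁ ∈ Ψ → (∀ v ∈ Ψ, ρ r₁ v ∈ Ψ) → (∀ v ∈ Ψ, ρ r₂ v ∈ Ψ) →
      ∃ k : ℕ, 0 < k ∧ (r₁ * r₂) ^ k = 1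

/-- INF3 (uses BFI, INFO): for three distinct generators of a Coxeter matrix with `∑ 1/m ≤ 1` (all finite) there are two reflections
in the subgroup with product of infinite order, of the form used below: either `r₁ = s`, `r₂ = t r t`, for a suitable naming,
or `r₁ = t`, `r₂ = (s r) t (s r)⁻¹`. If all three labels are `≥ 3` (`c ≥ 1/2`): roots `α_s`, `ρ(t) α_r = α_r + 2 c_{tr} α_t`, form
`-(c_{sr} + 2 c_{tr} c_{st}) ≤ -1`. If `M s r = 2`: roots `α_t`, `ρ(sr) α_t = α_t + 2 c_{st} α_s + 2 c_{tr} α_r`, form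
`1 - 2 c_{st}² - 2 c_{tr}² ≤ -1`, as `c_{st}² + c_{tr}² ≥ 1`: `1/m + 1/m' ≤ 1/2`, so `π/m + π/m' ≤ π/2`,
`cos(π/m) ≥ sin(π/m')`. INFO. Here stated with the words: there are words `w₁, w₂` in `s, t, r` and generators `x, y ∈ {s,t,r}` with
`w₁ x w₁⁻¹ w₂ y w₂⁻¹` of infinite order. -/
def Stmt_INF3 : Prop :=
  ∀ (S : Type) [Fintype S] [DecidableEq S] (M : CoxeterMatrix S), ETyp M → ∀ s t r : S,
    s ≠ t → t ≠ r → s ≠ r →
    ∃ (w₁ w₂ : M.Group) (x y : S), w₁ ∈ Subgroup.closure (M.simple '' ({s, t, r} : Set S)) ∧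
      w₂ ∈ Subgroup.closure (M.simple '' ({s, t, r} : Set S)) ∧ x ∈ ({s, t, r} : Set S) ∧
      y ∈ ({s, t, r} : Set S) ∧
      ∀ k : ℕ, 0 < k → ((w₁ * M.simple x * w₁⁻¹) * (w₂ * M.simple y * w₂⁻¹)) ^ k ≠ 1

/-- NOFX (uses FINP, INF3, BFI, CONE, POS): no point of the cone vanishes on three of the roots. Suppose `x ∈ UC`, `x = 0` on
`β_a, β_b, β_c`. `Ψ = {roots v of M', x v = 0}` is finite (`x ∈ UC`, POS; see the proof of helper91) and stable under `ρ'(ψ(w))`,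
`w ∈ closure {a,b,c}` (`x(ρ'(ψ a) v) = x(v)` as `x β_a = 0`). INF3 for `a, b, c`: reflections `ψ(w₁ x w₁⁻¹)`, `ψ(w₂ y w₂⁻¹)` of `M'` with roots
`ρ'(ψ w₁) β_x`, `ρ'(ψ w₂) β_y` in `Ψ`, whose product has infinite order, against FINP. -/
def Stmt_NOFXE : Prop := Stmt_NOFX

/-! ## Euclidean triangles -/

/-- EUC1 (uses RR, PRJ, GREP, BFI, ORDB, GRAM): a Euclidean triangle Artin group is not isomorphic to `Art M'` if `M'` has rank at
least three and is not a Euclidean triangle. RR: `φ(gen s)` is a reflection or the inverse of one; `r_s = π'(φ(gen s))`, `s ∈ S` (three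
elements), are reflections of `M'.Group` with roots `β_s`, they generate `M'.Group`. For every `w ∈ M'.Group` and `x`,
`ρ'(w) x - x ∈ span β` (true for `r_s`, multiplicative); for `w = simple s'`, `x = α_{s'}`: `-2 α_{s'} ∈ span β`. So `span β` is everything,
`card S' ≤ 3`, so `card S' = 3`, and `β` is a basis. The Gram matrix of `β` is `P G P^T`, `G` the Gram matrix of the simple roots of
`M'`, whose determinant is negative by GRAM (`M'` is not Euclidean), `det P ≠ 0`: so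
`1 + 2 b₁₂ b₁₃ b₂₃ - b₁₂² - b₁₃² - b₂₃² < 0`, `b_{ij} = bf β_i β_j`. On the other hand `(r_i r_j)^{M i j} = 1` and `r_i ≠ r_j` (`β` independent),
so the order of `r_i r_j` is a divisor `> 1` of `M i j ∈ {2,3,4,6}` and by ORDB `b_{ij}² = cos²(π/d) ≤ cos²(π/M i j)`:
`(3,3,3)`: `b² = 1/4`, `1 - 3/4 - 2/8 ≥ 0`; `(2,4,4)`: `b = 0`, `b² ≤ 1/2`, `b² ≤ 1/2`; `(2,3,6)`: `0`, `1/4`, `≤ 3/4`: the
determinant is `≥ 0`. Contradiction. (Triples `a ≤ b ≤ c` of integers `≥ 2` with `1/a + 1/b + 1/c = 1` are these three.) -/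
def Stmt_EUC1 : Prop :=
  ∀ (S S' : Type) [Finite S] [Finite S'] (M : CoxeterMatrix S) (M' : CoxeterMatrix S'),
    ETyp M → ETyp M' → IsEuc M → 3 ≤ Nat.card S' → ¬ IsEuc M' → IsEmpty (Art M ≃* Art M')

/-- EUC2: two Euclidean triangle Artin groups are isomorphic only if the matrices agree. The number of homomorphisms
`Art M →* Multiplicative (ZMod 2)` is the number of functions `f : S → ZMod 2` with `f s = f t` whenever `M s t` is odd (the braid
relation of length `m` gives `f s = f t` for `m` odd, nothing for `m` even): `2` for `(3,3,3)`, `8` for `(2,4,4)`, `4` for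
`(2,3,6)`. So the two triples of labels agree, and there is a bijection of the generators. -/
def Stmt_EUC2 : Prop :=
  ∀ (S S' : Type) [Finite S] [Finite S'] (M : CoxeterMatrix S) (M' : CoxeterMatrix S'),
    ETyp M → ETyp M' → IsEuc M → IsEuc M' → Nonempty (Art M ≃* Art M') →
    ∃ e : S ≃ S', ∀ s t, M' (e s) (e t) = M s t

/-- MAIN (helper60): the final theorem for at least two generators. -/
def Stmt_MAIN : Prop :=
  ∀ (S S' : Type) [Finite S] [Finite S'] (M : CoxeterMatrix S) (M' : CoxeterMatrix S'),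
    ETyp M → ETyp M' → 2 ≤ Nat.card S → 2 ≤ Nat.card S' →
    (Nonempty (Art M ≃* Art M') ↔ ∃ e : S ≃ S', ∀ s t, M' (e s) (e t) = M s t)

end Pool.HE
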