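import Pool.Agent.Work.MP_7084a3_full.InterfaceH

set_option autoImplicit false

/-! # Blocks G: strengthened Gauss–Bonnet theorem and its abstract consequences

`F l D n` = `Fill adj T l D n`.  Loop systems `LSys`, accounting data `Acc`, `LSOK`, `NP0`, `TLoop` are in `Defs.lean`.
Each `Stmt_X` is a block; its doc comment is its complete proof.  Blocks may use every `Stmt_Y` named in
their `uses` line as a hypothesis, and every `Pool.HA.Stmt_Z` (helper91, all proved; import
`Pool.Agent.Work.MP_7084a3_h91.B.Z` and use `stmt_Z`). -/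

namespace Pool.HE

open Pool.HA

/-- GBW (helper60): Gauss–Bonnet for a closed walk `P` (list of positions with kinds `≠ 0`) with compatible labels; `gaps P` is
the list of its gap steps. -/
def Stmt_GBW : Prop :=
  ∀ (V A : Type) [AddCommGroup A] (adj : V → V → Prop) (T : V → V → V → A), TriOK adj T →
    ∀ (la lb : ℕ → ℕ) (Y : ℕ → Set V) (P : List (V × ℕ)) (D : A) (n : ℕ), P ≠ [] →
    (∀ q ∈ P, q.2 ≠ 0) → P.IsChain (fun q r => la q.2 = lb r.2) →
    (∀ q ∈ P.getLast?, ∀ r ∈ P.head?, la q.2 = lb r.2) →
    MinF adj T (P.map Prod.fst) D n →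
    (∀ x q y, P = x ++ q :: y → ∀ r ∈ (y ++ x).head?, ∀ c ∈ Y (la q.2), adj q.1 c → adj c r.1 →
      ∀ n', Fill adj T (x.map Prod.fst ++ q.1 :: c :: y.map Prod.fst) (D - T q.1 r.1 c) n' →
        n ≤ n') →
    (∀ (D' : A) (n' : ℕ), n' ≤ n → Fill adj T [] D' n' → D' = 0) →
    ∃ X : LSys V, LSOK adj la lb Y (fun v s => (v, s) ∈ gaps P) X ∧
      2 * Fintype.card X.ι = P.length + n + 2 ∧
      ∀ (B : Type) [AddCommGroup B] (F : Acc adj T B),
        X.tot la lb F = ((gaps P).map (fun q => F.g q.1 q.2)).sum + n • F.κ - F.ψ D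

/-- ASPH0 (helper60): every sphere is zero. -/
def Stmt_ASPH0 : Prop :=
  ∀ (V A : Type) [AddCommGroup A] (adj : V → V → Prop) (T : V → V → V → A)
    (ang : V → V → V → ℝ), TriOK adj T → NP0 adj ang →
    ∀ (D : A) (n : ℕ), Fill adj T [] D n → D = 0

/-- UNI0 (helper60; copy of UNI with ASPH0): the chain of a filling depends only on the closed walk. -/
def Stmt_UNI0 : Prop :=
  ∀ (V A : Type) [AddCommGroup A] (adj : V → V → Prop) (T : V → V → V → A)
    (ang : V → V → V → ℝ), TriOK adj T → NP0 adj ang →
    ∀ (l : List V) (D₁ D₂ : A) (n₁ n₂ : ℕ), Fill adj T l D₁ n₁ → Fill adj T l D₂ n₂ → D₁ = D₂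

/-- COR (uses GBW, ASPH0): a closed walk with flagged (straight) positions has at least two unflagged
positions, and if it has exactly two then at every unflagged position the next vertex equals the previous
vertex.  Proof. Let `n` be minimal with `F (P.map fst) D n` for the given `D`. GBW for
`P` with kinds `1` (flagged), `2` (not flagged), `la = lb = 0`, `Y = ∅` gives `X`. Use
`Acc` with `f = ang` (corner sum `1`: `f u c v + f c v u + f v u c = 1 = κ - ψ`, by `NP0.sum` and `NP0.comm`),
`g v s = (s.k : ℝ)`, `J = 0`, `κ = 1`, `ψ = 0`: with `wt i` = weight of the loop `i` (`X.wt ang (fun k => k) i`),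
`∑ wt i = ∑_positions k + n = (L + nns P) + n` (`L = P.length`) and `2 card ι = L + n + 2`, so
`∑_i (wt i - 2) = nns P - 2`. Every loop has `2 ≤ wt i`: no gap: `NP0.loop` for the list
`(List.range (K i)).map (s i)`; two or more gaps: each has weight at least `1`, the triangles have positive
weight; exactly one gap, of kind `2`: clear; exactly one gap `g`, of kind `1`: it is the gap of a flagged position, so
`Str` holds between next (`g.a`) and previous (`g.b`) vertex; the other steps of the loop, in cyclic order starting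
after `g`, form a reduced link path from `g.b` to `g.a`; it is not empty (`K = 1` would give `g.b = g.a` by `cmp`, against
`Str`), so its weight is at least `1`. This proves `2 ≤ nns P`. If `nns P = 2` all loops have weight exactly
`2`. Let `q` be an unflagged position, `g₀ = ⟨next, previous, 2⟩` its gap. It occurs in `X` in a loop at the vertex `q.1` (`Acc` with
`f = 0`, `J = 0`, `κ = 0`, `ψ = 0`, `g v s = if v = q.1 ∧ s = g₀ then 1 else 0`: the total is at least `1`). That loop has weight
`2`, contains a step of weight `2`, and all steps have positive weight, so `K = 1`, and `cmp` says `g₀.b = g₀.a`. -/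
def Stmt_COR : Prop :=
  ∀ (V A : Type) [AddCommGroup A] (adj : V → V → Prop) (T : V → V → V → A)
    (ang : V → V → V → ℝ), TriOK adj T → NP0 adj ang →
    ∀ (P : List (V × Bool)), P ≠ [] → FlagOK adj ang P →
    (∃ (D : A) (n : ℕ), Fill adj T (P.map Prod.fst) D n) →
      2 ≤ nns P ∧ (nns P = 2 → ∀ x q y, P = x ++ q :: y → q.2 = false →
        ∀ r ∈ (y ++ x).head?, ∀ p ∈ (y ++ x).getLast?, r.1 = p.1)

/-- LNK (only `NP0`): short link paths. (RED) A nonempty reduced link path which is closed (ends at its
starting vertex) has weight at least `2`: remove from both ends pairs of inverse steps (first step `⟨a,c,0⟩`, last step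
`⟨c,a,0⟩`) as long as the closing condition `Cmp last first` fails (i.e. `last.a = first.b`); since the path is
reduced what remains is nonempty (a path of length 1 is not closed as `adj a b` and `irr`; length 2 and closed would be
`⟨a,c⟩⟨c,a⟩`, not reduced), reduced and closed with the closing condition: `NP0.loop`; the removed steps have
nonnegative weight. (CAT) If `ω₀` is a reduced path from `p` to `q` and `ω` a reduced path from `q` to `p` with
`wts ω₀ + wts ω < 2` then `wts ω₀ = wts ω`: induction on the lengths; if the last step of `ω₀` and the first step of `ω`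
are not inverse to each other then `ω₀ ++ ω` is a reduced closed path, against RED; if they are inverse, they have the
same weight (`NP0.comm`), remove both; if one of the two paths is empty then the other is closed, hence empty by RED.
(a) is RED. (b) `wts ω₀ = 1`: the ends `p, q` are different by RED; a nonempty reduced path `ω` from `q` to `p` with
`wts ω < 1` would have `wts ω = 1` by CAT, so `Str v p q`; for `Str v q p` apply the same to the reverse of `ω₀`
(steps `⟨b,a,0⟩`, same weight), a path from `q` to `p`. -/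
def Stmt_LNK : Prop :=
  ∀ (V : Type) (adj : V → V → Prop) (ang : V → V → V → ℝ), NP0 adj ang →
    ∀ (v : V) (ω : List (Stp V)), ω ≠ [] → LPath adj v ω →
      ∀ s ∈ ω.head?, ∀ t ∈ ω.getLast?,
        (wts ang v ω < 2 → s.a ≠ t.b) ∧
        (wts ang v ω = 1 → Str adj ang v s.a t.b ∧ Str adj ang v t.b s.a)

/-- TAU: a labelling `lab : I → Λ` such that every function `J` antisymmetric under the involution `sw` has sum
zero admits a permutation `τ` with `lab (τ x) = sw (lab x)`. For `ℓ : Λ` take
`J = 1_ℓ - 1_(sw ℓ)`: the fibres over `ℓ` and `sw ℓ` have the same number of elements; choose bijections between them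
(for all `ℓ`) and glue. -/
def Stmt_TAU : Prop :=
  ∀ (I Λ : Type) [Fintype I] (lab : I → Λ) (sw : Λ → Λ), (∀ a, sw (sw a) = a) →
    (∀ J : Λ → ℤ, (∀ a, J a + J (sw a) = 0) → ∑ x, J (lab x) = 0) →
    ∃ τ : Equiv.Perm I, ∀ x, lab (τ x) = sw (lab x)

/-- TRJ: trajectories of a finite partial injection without cycles. `f x` = the last element of the chain
`x → x' → ⋯` (it exists as there are no cycles and `I` is finite: e.g. strong induction on the number of elements
reachable from `x`). If `f x = f y` go back from the common end: by injectivity one of the two chains contains the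
other. -/
def Stmt_TRJ : Prop :=
  ∀ (I : Type) [Finite I] (R : I → I → Prop), (∀ x y z, R x y → R x z → y = z) →
    (∀ x y z, R x z → R y z → x = y) →
    (∀ l : List I, l.IsChain R → ∀ x ∈ l.head?, ∀ y ∈ l.getLast?, ¬ R y x) →
    ∃ f : I → I, (∀ x y, ¬ R (f x) y) ∧ ∀ x y, f x = f y →
      ∃ l : List I, l.IsChain R ∧ ((l.head? = some x ∧ l.getLast? = some y) ∨
        (l.head? = some y ∧ l.getLast? = some x))

/-- ISQA (uses COR, TRJ): counting crossings. `I` is a finite set of directed edges `vt x → bt x` of the complex, `R x y`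
says that `y` continues `x` straight (through the vertex `vt y = bt x`). `Ω` is a finite set of crossings: `x₀ o`, `x₁ o`
start at the same vertex in different directions, and no trajectory arriving at `x₁ o` comes from the vertex `bt (x₀ o)`.
Then `card Ω ≤ h²`, `h` = number of terminal elements of `I`.
Proof. Every closed walk is fillable (hypothesis), so COR applies to all flagged closed walks. (1) No cycles: for a chain
`l = [x₁,…,x_k]` of `R` with `R x_k x₁` the closed walk `[vt x₁, …, vt x_k]` with all positions flagged is straight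
everywhere (`vt x_{i+1} = bt x_i`, `Str` between next `bt x_{i+1}` and previous `vt x_i`), against `2 ≤ nns`. (2) TRJ gives
`f`. The map `o ↦ (f (x₀ o), f (x₁ o))` goes to pairs of terminal elements. It is injective: let `o ≠ o'` have the same
image; then `x₀ o, x₀ o'` are joined by a chain of `R` of length at least two (`x₀` is injective) in one of the two
directions, and so are `x₁ o, x₁ o'`. Exchanging `o, o'` we may assume that `x₀ o → ⋯ → x₀ o'`. The chain
`x₀ o = z₀, …, z_p = x₀ o'` gives the walk `W₀ = (vt z₀, …, vt z_p)` from `vt (x₀ o)` to `vt (x₀ o')`, straight at its interior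
vertices, with second vertex `bt (x₀ o)`. Case A: `x₁ o → ⋯ → x₁ o'` gives `W₁` from `vt (x₁ o) = vt (x₀ o)` to
`vt (x₀ o')`, second vertex `bt (x₁ o)`. The closed walk `W₀ · W₁⁻¹`, flagged except at its two ends (for the reversed walk use
the second `Str`), has `nns = 2`, so by COR next = previous at `vt (x₀ o)`: `bt (x₀ o) = bt (x₁ o)`, excluded. Case B:
`x₁ o' → ⋯ → x₁ o` gives `W₁` from `vt (x₀ o')` to `vt (x₀ o)` with last vertex but one `vt z`, `R z (x₁ o)`. The closed walk
`W₀ · W₁` has `nns = 2`; COR at `vt (x₀ o)`: `bt (x₀ o) = vt z`, excluded. -/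
def Stmt_ISQA : Prop :=
  ∀ (V A : Type) [AddCommGroup A] (adj : V → V → Prop) (T : V → V → V → A)
    (ang : V → V → V → ℝ), TriOK adj T → NP0 adj ang →
    (∀ l : List V, CW adj l → ∃ (D : A) (n : ℕ), Fill adj T l D n) →
    ∀ (I Ω : Type) [Fintype I] [Fintype Ω] (vt bt : I → V) (R : I → I → Prop)
      (x₀ x₁ : Ω → I), (∀ x, adj (vt x) (bt x)) → (∀ x y z, R x y → R x z → y = z) →
      (∀ x y z, R x z → R y z → x = y) →
      (∀ x y, R x y → vt y = bt x ∧ Str adj ang (vt y) (bt y) (vt x) ∧
        Str adj ang (vt y) (vt x) (bt y)) →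
      Function.Injective x₀ → Function.Injective x₁ → (∀ o, vt (x₀ o) = vt (x₁ o)) →
      (∀ o, bt (x₀ o) ≠ bt (x₁ o)) → (∀ o z, R z (x₁ o) → vt z ≠ bt (x₀ o)) →
      Fintype.card Ω ≤ (Nat.card {x : I // ∀ y, ¬ R x y}) ^ 2

/-! ## Integer chains -/

/-- ZG2 (uses ZG, or directly): as ZG, with a path without repeated vertices. (Take a shortest path in the support.) -/
def Stmt_ZG2 : Prop :=
  ∀ (V : Type) (E : (V × V) →₀ ℤ) (v w : V), v ≠ w →
    (E.sum fun p a => a • (Finsupp.single p.2 (1 : ℤ) - Finsupp.single p.1 1)) =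
      Finsupp.single w 1 - Finsupp.single v 1 →
    ∃ l : List V, l.head? = some v ∧ l.getLast? = some w ∧ l.Nodup ∧
      l.IsChain (fun a b => (a, b) ∈ E.support ∨ (b, a) ∈ E.support)

/-- ZZS (everything is in `Pool/Agent/Work/MP_7084a3_h91/B/ZZ1.lean`; take the pieces of that proof). `osum σ τ t D` is the sum
of `D` over the orbit of `t` (two commuting permutations). (1) If all orbit sums vanish then
`D = (P - σ P) + (Q - τ Q)`. (2) If the orbit of `t` is free, then for `K` bounding `|a|, |b|` for all
`σ^a τ^b t ∈ D.support` the partial sums over a square have in its middle the value `osum`. (3) `osum` is invariant under `σ` and `τ`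
and bounded by `nf`. -/
def Stmt_ZZS : Prop :=
  ∀ (X : Type) (σ τ : Equiv.Perm X), Commute σ τ →
    (∀ D : X →₀ ℤ, (∀ t, osum σ τ t D = 0) →
      ∃ P Q : X →₀ ℤ, D = (P - mv σ P) + (Q - mv τ Q) ∧
        (∀ x ∈ P.support, ∃ a b : ℤ, (σ ^ a * τ ^ b) x ∈ D.support) ∧
        (∀ x ∈ Q.support, ∃ a b : ℤ, (σ ^ a * τ ^ b) x ∈ D.support)) ∧
    (∀ (D : X →₀ ℤ) (t : X), (∀ a b : ℤ, (σ ^ a * τ ^ b) t = t → a = 0 ∧ b = 0) →
      ∃ K : ℕ, ∀ N i j : ℕ, K ≤ i → K ≤ j → i + K < N → j + K < N →
        (∑ a ∈ Finset.range N, ∑ b ∈ Finset.range N, mv (σ ^ a * τ ^ b) D) ((σ ^ i * τ ^ j) t) =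
          osum σ τ t D) ∧
    (∀ (D : X →₀ ℤ) (t : X), osum σ τ t (mv σ D) = osum σ τ t D ∧
      osum σ τ t (mv τ D) = osum σ τ t D ∧ (osum σ τ t D).natAbs ≤ nf D)

end Pool.HE
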