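import Pool.Agent.Work.MP_7084a3_full.Basic
import Pool.Agent.Work.MP_7084a3_h91.InterfaceD
import Pool.Agent.Work.MP_7084a3_h91.InterfaceF
import Pool.Agent.Work.MP_7084a3_h91.InterfaceX
import Pool.Agent.Work.MP_7084a3_h91.InterfaceW
import Pool.Agent.Work.MP_7084a3_h91.InterfaceK

set_option autoImplicit false

/-! # Copies of the statements of helper91's blocks with `ETyp` in place of `HypType`.
Same names, namespace `Pool.HE`; all proofs are done (copies, in `B/`) except the blocks INJ2, X1, BIG, CYC, NOFX. -/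

namespace Pool.HE

open Pool.HA

/-- copy of `Pool.HA.Stmt_LK2` -/
def Stmt_LK2 : Prop :=
  ∀ (S : Type) [DecidableEq S] (M : CoxeterMatrix S), ETyp M → ∀ (ε : ℝ)
    (v : Vtx (gen M)) (a b : S), a ≠ b → v.J = {a, b} → ∀ ω : List (Stp (Vtx (gen M))), ω ≠ [] →
    LPath Vtx.ad v ω → (∀ s ∈ ω.head?, s.a.J = {a}) → (∀ s ∈ ω.getLast?, s.b.ty = 1) →
    ∃ (k : ℕ) (y : Art M) (l : List ℤ), l.length = k ∧ (∀ x ∈ l, x ≠ 0) ∧
      (∀ s ∈ ω.head?, s.b.ty = 0 ∧ s.b.mem y ∧ s.a.mem y) ∧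
      (∀ s ∈ ω.getLast?, s.a.ty = 0 ∧ s.a.mem (y * altP (gen M b) (gen M a) l) ∧
        s.b.mem (y * altP (gen M b) (gen M a) l) ∧ s.b.J = if Even k then {b} else {a}) ∧
      wts (ang M ε) v ω = (k + 1 : ℝ) / (M a b : ℝ)

/-- copy of `Pool.HA.Stmt_STR` -/
def Stmt_STR : Prop :=
  ∀ (S : Type) [DecidableEq S] (M : CoxeterMatrix S), ETyp M → ∀ (ε : ℝ) (r : Art M)
    (p q n : Vtx (gen M)), Rfl (gen M) r → q.ad p → q.ad n → p ≠ n → r • p = p → r • q = q →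
    r • n = n → Str Vtx.ad (ang M ε) q n p

/-- INJ2 (block; uses EXF, CONN, NPC0, UNI0, BD, FCAT, FBR, FREV, FTRI, TTOK): copy `INJ2.lean` of helper91 with `NPC0`, `UNI0` in place of
`NPC`, `UNI` (only the uniqueness of the chain is used). -/
def Stmt_INJ2 : Prop :=
  ∀ (S : Type) [Finite S] (M : CoxeterMatrix S), ETyp M → ∀ D : C2 (gen M), Flagged D →
    bd2 (gen M) D = 0 → D = 0

/-- X1 (block; uses ISOQ, INJ2, BD, BD1, CONN, ZL, ZPER, ZG): copy `X1.lean` of helper91; the only change: the closed walk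
`γ (h^N γ)⁻¹` has length at most `2 |γ|`, so by ISOQ its chain has norm at most `C (2 |γ|)²`, independent of `N`. -/
def Stmt_X1 : Prop :=
  ∀ (S : Type) [Finite S] (M : CoxeterMatrix S), ETyp M → ∀ (h : Art M) (v w : Vtx (gen M)),
    (∀ k : ℕ, 0 < k → h ^ k ≠ 1) → v ≠ w → h • v = v → h • w = w →
    ∃ K : ℕ, 0 < K ∧ ∃ l, Wk l v w ∧ Fx (h ^ K) l

/-- BIG (block; uses COR, STR, NPC0, EXF, TTOK, WCH): reduced walks in fixed sets of reflections with the same ends are equal.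
Induction on `P.length + Q.length`. A walk in the fixed set of a reflection without backtracking is straight at its interior
vertices (STR with `ε = 0`, for both directions). If `P = [v]` (so `v = w`) and `Q` has more than one vertex, the closed walk
`Q.dropLast` has at most one unflagged position, against COR (`2 ≤ nns`); same for `Q = [v]`. Otherwise the closed walk
`P.dropLast ++ Q.reverse.dropLast` is flagged except at `v` and `w`: `nns = 2`, and COR says that at `v` the next vertex (the second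
vertex of `P`) equals the previous one (the second vertex of `Q`). Remove the first vertex from both walks and use the induction
hypothesis. -/
def Stmt_BIG : Prop :=
  ∀ (S : Type) [Finite S] (M : CoxeterMatrix S), ETyp M → ∀ (r₁ r₂ : Art M) (v w : Vtx (gen M))
    (P Q : List (Vtx (gen M))), Rfl (gen M) r₁ → Rfl (gen M) r₂ → Wk P v w → Wk Q v w → Fx r₁ P →
    Fx r₂ Q → Red P → Red Q → P = Q

/-- CYC (block; uses COR, STR, NPC0, EXF, TTOK): no cyclically reduced closed walk in the fixed set of a reflection (all positions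
flagged, `nns = 0`, against COR). -/
def Stmt_CYC : Prop :=
  ∀ (S : Type) [Finite S] (M : CoxeterMatrix S), ETyp M → ∀ (r : Art M)
    (l : List (Vtx (gen M))), Rfl (gen M) r → l ≠ [] → CW Vtx.ad l → Fx r l →
    (∀ x q y, l = x ++ q :: y → ∀ n ∈ (y ++ x).head?, ∀ p ∈ (y ++ x).getLast?, n ≠ p) → False

/-- copy of `Pool.HA.Stmt_F3` -/
def Stmt_F3 : Prop :=
  ∀ (S : Type) [Finite S] (M : CoxeterMatrix S), ETyp M → ∀ r : Art M, Rfl (gen M) r →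
    (∀ k : ℤ, k ≠ 0 → ∀ w : Vtx (gen M), (r ^ k) • w = w → r • w = w) ∧
    (∀ v w : Vtx (gen M), r • v = v → r • w = w → ∃ l, Wk l v w ∧ Fx r l)

/-- copy of `Pool.HA.Stmt_F4` -/
def Stmt_F4 : Prop :=
  ∀ (S : Type) [Finite S] (M : CoxeterMatrix S), ETyp M → ∀ r : Art M, Rfl (gen M) r →
    ∀ k : ℤ, k ≠ 0 → (∀ r₂ : Art M, Rfl (gen M) r₂ → ∀ j : ℤ, r ^ k = r₂ ^ j → r = r₂) ∧
      (∀ y : Art M, Commute y (r ^ k) → Commute y r)

/-- copy of `Pool.HA.Stmt_F8` -/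
def Stmt_F8 : Prop :=
  ∀ (S : Type) [Finite S] (M : CoxeterMatrix S), ETyp M → ∀ (r₁ r₂ : Art M)
    (v w : Vtx (gen M)), Rfl (gen M) r₁ → Rfl (gen M) r₂ → v ≠ w → r₁ • v = v → r₁ • w = w →
    r₂ • v = v → r₂ • w = w → r₁ = r₂

/-- copy of `Pool.HA.Stmt_F6` -/
def Stmt_F6 : Prop :=
  ∀ (S : Type) [Finite S] (M : CoxeterMatrix S), ETyp M → ∀ (r x : Art M) (a : ℕ) (b : ℤ),
    Rfl (gen M) r → Commute x r → 0 < a → x ^ a = r ^ b → ∃ i : ℤ, x = r ^ i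

/-- copy of `Pool.HA.Stmt_F5` -/
def Stmt_F5 : Prop :=
  ∀ (S : Type) [Finite S] (M : CoxeterMatrix S), ETyp M → ∀ (h : Art M) (v : Vtx (gen M)),
    h ≠ 1 → h • v = v → (∃ r, Rfl (gen M) r ∧ ∃ i : ℤ, h = r ^ i) ∨
      (∀ k : ℤ, k ≠ 0 → ∀ w : Vtx (gen M), (h ^ k) • w = w → w = v)

/-- copy of `Pool.HA.Stmt_F10` -/
def Stmt_F10 : Prop :=
  ∀ (S : Type) [Finite S] (M : CoxeterMatrix S), ETyp M → 3 ≤ Nat.card S → ∀ r : Art M,
    Rfl (gen M) r → ∃ u₁ u₂ : Vtx (gen M), u₁ ≠ u₂ ∧ r • u₁ = u₁ ∧ r • u₂ = u₂ ∧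
      (∀ u ∈ [u₁, u₂], u.ty = 2 ∧ 3 ≤ lb M u.J)

/-- copy of `Pool.HA.Stmt_CZ` -/
def Stmt_CZ : Prop :=
  ∀ (S : Type) [Finite S] (M : CoxeterMatrix S), ETyp M → ∀ (s t : S) (x : Art M)
    (u : Vtx (gen M)), s ≠ t → 3 ≤ M s t → (∀ a, a ∈ u.J ↔ a = s ∨ a = t) → u.mem x →
    ∀ k : ℤ, k ≠ 0 →
      (∀ w : Vtx (gen M), ((x * (gen M s * gen M t) ^ M s t * x⁻¹) ^ k) • w = w → w = u) ∧
      (∀ y : Art M, Commute y ((x * (gen M s * gen M t) ^ M s t * x⁻¹) ^ k) → y • u = u)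

/-- copy of `Pool.HA.Stmt_INT` -/
def Stmt_INT : Prop :=
  ∀ (S : Type) [Finite S] (M : CoxeterMatrix S), ETyp M → ∀ (r h : Art M)
    (u₁ u₂ : Vtx (gen M)), Rfl (gen M) r → u₁ ≠ u₂ → r • u₁ = u₁ → r • u₂ = u₂ → h • u₁ = u₁ →
    h • u₂ = u₂ → ∃ i : ℤ, h = r ^ i

/-- copy of `Pool.HA.Stmt_F7` -/
def Stmt_F7 : Prop :=
  ∀ (S : Type) [Finite S] (M : CoxeterMatrix S), ETyp M → 3 ≤ Nat.card S → ∀ r z : Art M,
    Rfl (gen M) r → (∀ y, Commute y r → Commute z y) → ∃ i : ℤ, z = r ^ i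

/-- copy of `Pool.HA.Stmt_K1` -/
def Stmt_K1 : Prop :=
  ∀ (S : Type) [Finite S] (M : CoxeterMatrix S), ETyp M → 3 ≤ Nat.card S → ∀ z : Art M,
    (∀ y, Commute z y) → z = 1

/-- the situation: `ψ` an isomorphism preserving reflections, `β s` a root of the reflection `ψ(s)` -/
structure WC {S S' : Type} [Fintype S] [DecidableEq S] [Fintype S'] [DecidableEq S']
    (M : CoxeterMatrix S) (M' : CoxeterMatrix S') (ρ : M.Group →* Module.End ℝ (S → ℝ))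
    (ρ' : M'.Group →* Module.End ℝ (S' → ℝ)) (ψ : M.Group ≃* M'.Group) (β : S → (S' → ℝ)) :
    Prop where
  hM : ETyp M
  hM' : ETyp M'
  rep : IsRep M ρ
  rep' : IsRep M' ρ'
  refl : ∀ s, IsRf M' ρ' (ψ (M.simple s)) (β s)
  refl' : ∀ s', ∃ w s, ψ.symm (M'.simple s') = w * M.simple s * w⁻¹
  gram : ∀ s t, s ≠ t → |bf M' (β s) (β t)| = Real.cos (Real.pi / M s t)

/-- copy of `Pool.HA.Stmt_SG3` -/
def Stmt_SG3 : Prop :=
  ∀ (S S' : Type) [Fintype S] [DecidableEq S] [Fintype S'] [DecidableEq S']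
    (M : CoxeterMatrix S) (M' : CoxeterMatrix S') (ρ : M.Group →* Module.End ℝ (S → ℝ))
    (ρ' : M'.Group →* Module.End ℝ (S' → ℝ)) (ψ : M.Group ≃* M'.Group) (β : S → (S' → ℝ)),
    WC M M' ρ ρ' ψ β → ∀ s t r, s ≠ t → t ≠ r → s ≠ r → 3 ≤ M s t → 3 ≤ M t r → 3 ≤ M s r →
      bf M' (β s) (β t) * bf M' (β t) (β r) * bf M' (β s) (β r) < 0

/-- copy of `Pool.HA.Stmt_SG4` -/
def Stmt_SG4 : Prop :=
  ∀ (S S' : Type) [Fintype S] [DecidableEq S] [Fintype S'] [DecidableEq S']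
    (M : CoxeterMatrix S) (M' : CoxeterMatrix S') (ρ : M.Group →* Module.End ℝ (S → ℝ))
    (ρ' : M'.Group →* Module.End ℝ (S' → ℝ)) (ψ : M.Group ≃* M'.Group) (β : S → (S' → ℝ)),
    WC M M' ρ ρ' ψ β → ∀ s₁ s₂ s₃ s₄, [s₁, s₂, s₃, s₄].Nodup → M s₁ s₃ = 2 → M s₂ s₄ = 2 →
      0 < bf M' (β s₁) (β s₂) * bf M' (β s₂) (β s₃) * bf M' (β s₃) (β s₄) * bf M' (β s₄) (β s₁)

/-- copy of `Pool.HA.Stmt_SGN` -/
def Stmt_SGN : Prop :=
  ∀ (S S' : Type) [Fintype S] [DecidableEq S] [Fintype S'] [DecidableEq S']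
    (M : CoxeterMatrix S) (M' : CoxeterMatrix S') (ρ : M.Group →* Module.End ℝ (S → ℝ))
    (ρ' : M'.Group →* Module.End ℝ (S' → ℝ)) (ψ : M.Group ≃* M'.Group) (β : S → (S' → ℝ)),
    WC M M' ρ ρ' ψ β → ∃ β', WC M M' ρ ρ' ψ β' ∧
      ∀ s t, s ≠ t → bf M' (β' s) (β' t) = -Real.cos (Real.pi / M s t)

/-- copy of `Pool.HA.Stmt_NOFX` -/
def Stmt_NOFX : Prop :=
  ∀ (S S' : Type) [Fintype S] [DecidableEq S] [Fintype S'] [DecidableEq S']
    (M : CoxeterMatrix S) (M' : CoxeterMatrix S') (ρ : M.Group →* Module.End ℝ (S → ℝ))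
    (ρ' : M'.Group →* Module.End ℝ (S' → ℝ)) (ψ : M.Group ≃* M'.Group) (β : S → (S' → ℝ)),
    WC M M' ρ ρ' ψ β → (∀ s t, s ≠ t → bf M' (β s) (β t) = -Real.cos (Real.pi / M s t)) →
    ∀ a b c, a ≠ b → b ≠ c → a ≠ c → ∀ x ∈ UC M' ρ', ¬(x (β a) = 0 ∧ x (β b) = 0 ∧ x (β c) = 0)

/-- copy of `Pool.HA.Stmt_FXP` -/
def Stmt_FXP : Prop :=
  ∀ (S S' : Type) [Fintype S] [DecidableEq S] [Fintype S'] [DecidableEq S']
    (M : CoxeterMatrix S) (M' : CoxeterMatrix S') (ρ : M.Group →* Module.End ℝ (S → ℝ))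
    (ρ' : M'.Group →* Module.End ℝ (S' → ℝ)) (ψ : M.Group ≃* M'.Group) (β : S → (S' → ℝ)),
    WC M M' ρ ρ' ψ β → ∀ a b, a ≠ b → ∃ x ∈ UC M' ρ', x (β a) = 0 ∧ x (β b) = 0

/-- copy of `Pool.HA.Stmt_TRIP` -/
def Stmt_TRIP : Prop :=
  ∀ (S S' : Type) [Fintype S] [DecidableEq S] [Fintype S'] [DecidableEq S']
    (M : CoxeterMatrix S) (M' : CoxeterMatrix S') (ρ : M.Group →* Module.End ℝ (S → ℝ))
    (ρ' : M'.Group →* Module.End ℝ (S' → ℝ)) (ψ : M.Group ≃* M'.Group) (β : S → (S' → ℝ)),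
    WC M M' ρ ρ' ψ β → (∀ s t, s ≠ t → bf M' (β s) (β t) = -Real.cos (Real.pi / M s t)) →
    ∀ a b c, a ≠ b → b ≠ c → a ≠ c → ∀ x ∈ UC M' ρ', ∀ y ∈ UC M' ρ', x (β a) = 0 → x (β b) = 0 →
      y (β b) = 0 → y (β c) = 0 → 0 < x (β c) * y (β a)

/-- copy of `Pool.HA.Stmt_GLOB` -/
def Stmt_GLOB : Prop :=
  ∀ (S S' : Type) [Fintype S] [DecidableEq S] [Fintype S'] [DecidableEq S']
    (M : CoxeterMatrix S) (M' : CoxeterMatrix S') (ρ : M.Group →* Module.End ℝ (S → ℝ))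
    (ρ' : M'.Group →* Module.End ℝ (S' → ℝ)) (ψ : M.Group ≃* M'.Group) (β : S → (S' → ℝ)),
    WC M M' ρ ρ' ψ β → (∀ s t, s ≠ t → bf M' (β s) (β t) = -Real.cos (Real.pi / M s t)) →
    3 ≤ Fintype.card S → ∃ τ : ℝ, (τ = 1 ∨ τ = -1) ∧ ∃ x ∈ UC M' ρ', ∀ c, 0 < x (τ • β c)

/-- copy of `Pool.HA.Stmt_DOM` -/
def Stmt_DOM : Prop :=
  ∀ (S S' : Type) [Fintype S] [DecidableEq S] [Fintype S'] [DecidableEq S']
    (M : CoxeterMatrix S) (M' : CoxeterMatrix S') (ρ : M.Group →* Module.End ℝ (S → ℝ))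
    (ρ' : M'.Group →* Module.End ℝ (S' → ℝ)) (ψ : M.Group ≃* M'.Group) (β : S → (S' → ℝ)),
    WC M M' ρ ρ' ψ β → (∀ s t, s ≠ t → bf M' (β s) (β t) = -Real.cos (Real.pi / M s t)) →
    3 ≤ Fintype.card S → ∃ (ψ' : M.Group ≃* M'.Group) (γ : S → (S' → ℝ)), WC M M' ρ ρ' ψ' γ ∧
      (∀ s t, s ≠ t → bf M' (γ s) (γ t) = -Real.cos (Real.pi / M s t)) ∧ ∀ s, IsPR M' ρ' (γ s)

/-- copy of `Pool.HA.Stmt_MONO` -/
def Stmt_MONO : Prop :=
  ∀ (S S' : Type) [Fintype S] [DecidableEq S] [Fintype S'] [DecidableEq S']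
    (M : CoxeterMatrix S) (M' : CoxeterMatrix S') (ρ : M.Group →* Module.End ℝ (S → ℝ))
    (ρ' : M'.Group →* Module.End ℝ (S' → ℝ)) (ψ : M.Group ≃* M'.Group) (γ : S → (S' → ℝ)),
    WC M M' ρ ρ' ψ γ → (∀ s t, s ≠ t → bf M' (γ s) (γ t) = -Real.cos (Real.pi / M s t)) →
    (∀ s, IsPR M' ρ' (γ s)) → ∃ e : S ≃ S', ∀ s t, M' (e s) (e t) = M s t

end Pool.HE
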